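import Pool.Agent.H203R3.MM.Uniq

open scoped BigOperators Matrix Matrix.Norms.L2Operator Topology
open MeasureTheory Filter

set_option linter.unusedSectionVars false

namespace H203R3.MM

variable {n : ℕ}

theorem M_pow (hn : 0 < n) (a j : ℕ) (T : Co n) : M j T ^ a ≤ M (a * j) T := by
  induction a with
  | zero => rw [pow_zero, zero_mul, M_zero hn]
  | succ a ih =>
    rw [pow_succ]
    calc M j T ^ a * M j T ≤ M (a * j) T * M j T :=
          mul_le_mul_of_nonneg_right ih (M_nonneg _ _)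
      _ ≤ M (a * j + j) T := M_mul hn _ _ _
      _ = _ := by rw [Nat.succ_mul]

/-- convergence in `L²` -/
def Cv (X : ∀ n, Co n → ℝ) (x : ℝ) : Prop :=
  (∀ n, PBR (X n)) ∧ Tendsto (fun n => Ex (fun T : Co n => (X n T - x) ^ 2)) atTop (𝓝 0)

theorem Cv.of_le {X : ∀ n, Co n → ℝ} {x : ℝ} (hX : ∀ n, PBR (X n)) {u : ℕ → ℝ}
    (hu : Tendsto u atTop (𝓝 0)) (h : ∀ n, 0 < n → Ex (fun T : Co n => (X n T - x) ^ 2) ≤ u n) :
    Cv X x := by
  refine ⟨hX, squeeze_zero' ?_ ?_ hu⟩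
  · filter_upwards [eventually_gt_atTop 0] with n hn
    exact Ex_nonneg hn fun T => sq_nonneg _
  · filter_upwards [eventually_gt_atTop 0] with n hn
    exact h n hn

theorem Cv.pb {X : ∀ n, Co n → ℝ} {x : ℝ} (h : Cv X x) (n : ℕ) :
    PBR (fun T : Co n => (X n T - x) ^ 2) := ((h.1 n).sub (PBR.const x)).pow 2

theorem Cv.add {X Y : ∀ n, Co n → ℝ} {x y : ℝ} (hX : Cv X x) (hY : Cv Y y) :
    Cv (fun n T => X n T + Y n T) (x + y) := by
  have hu := (hX.2.const_mul 2).add (hY.2.const_mul 2)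
  rw [mul_zero, add_zero] at hu
  refine Cv.of_le (fun n => (hX.1 n).add (hY.1 n)) hu fun n hn => ?_
  rw [← Ex_const_mul, ← Ex_const_mul, ← Ex_add hn ((PBR.const 2).mul (hX.pb n))
    ((PBR.const 2).mul (hY.pb n))]
  refine Ex_mono hn ((((hX.1 n).add (hY.1 n)).sub (PBR.const _)).pow 2)
    (((PBR.const 2).mul (hX.pb n)).add ((PBR.const 2).mul (hY.pb n))) fun T => ?_
  nlinarith [sq_nonneg ((X n T - x) - (Y n T - y))]

theorem Cv.const_mul {X : ∀ n, Co n → ℝ} {x : ℝ} (c : ℝ) (hX : Cv X x) :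
    Cv (fun n T => c * X n T) (c * x) := by
  have hu := hX.2.const_mul (c ^ 2)
  rw [mul_zero] at hu
  refine Cv.of_le (fun n => (PBR.const c).mul (hX.1 n)) hu fun n hn => ?_
  rw [← Ex_const_mul]
  refine le_of_eq ?_
  congr 1
  funext T
  ring

theorem Cv.sum (k : ℕ) {X : ℕ → ∀ n, Co n → ℝ} {x : ℕ → ℝ} (h : ∀ j, j < k → Cv (X j) (x j)) :
    Cv (fun n T => ∑ j ∈ Finset.range k, X j n T) (∑ j ∈ Finset.range k, x j) := by
  induction k with
  | zero =>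
    refine Cv.of_le (u := fun _ => 0) (fun n => by simpa using PBR.const (n := n) 0)
      tendsto_const_nhds fun n hn => ?_
    simp [Ex]
  | succ k ih =>
    simp only [Finset.sum_range_succ]
    exact (ih fun j hj => h j (by omega)).add (h k (by omega))

theorem Cv.mul {X Y : ∀ n, Co n → ℝ} {x y C : ℝ} (hX : Cv X x) (hY : Cv Y y)
    (hC : ∀ n, 0 < n → Ex (fun T : Co n => (X n T - x) ^ 2 * Y n T ^ 4) ≤ C) :
    Cv (fun n T => X n T * Y n T) (x * y) := by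
  have hC0 : 0 ≤ C := (Ex_nonneg one_pos fun T => by positivity).trans (hC 1 one_pos)
  refine ⟨fun n => (hX.1 n).mul (hY.1 n), ?_⟩
  have hnn : ∀ᶠ n in atTop, 0 ≤ Ex (fun T : Co n => (X n T * Y n T - x * y) ^ 2) := by
    filter_upwards [eventually_gt_atTop 0] with n hn
    exact Ex_nonneg hn fun T => sq_nonneg _
  rw [Metric.tendsto_nhds]
  intro ε hε
  set δ : ℝ := ε / (2 * (C + 1)) with hδ
  have hδp : 0 < δ := by rw [hδ]; positivity
  have hδC : δ * C ≤ ε / 2 := by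
    rw [hδ, div_mul_eq_mul_div, div_le_div_iff₀ (by positivity) (by norm_num)]
    nlinarith
  have hu := (hX.2.const_mul (1 / δ)).add (hY.2.const_mul (2 * x ^ 2))
  rw [mul_zero, mul_zero, add_zero] at hu
  have hev := hu.eventually_lt_const (show (0 : ℝ) < ε / 2 by linarith)
  filter_upwards [hev, hnn, eventually_gt_atTop 0] with n h1 h2 hn
  rw [Real.dist_eq, sub_zero, abs_of_nonneg h2]
  have p1 := hX.pb n
  have p2 := hY.pb n
  have p3 : PBR (fun T : Co n => (X n T - x) ^ 2 * Y n T ^ 4) := p1.mul ((hY.1 n).pow 4)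
  have p4 : PBR (fun T : Co n => (1 / δ) * (X n T - x) ^ 2) := (PBR.const _).mul p1
  have p5 : PBR (fun T : Co n => δ * ((X n T - x) ^ 2 * Y n T ^ 4)) := (PBR.const _).mul p3
  have p6 : PBR (fun T : Co n => (2 * x ^ 2) * (Y n T - y) ^ 2) := (PBR.const _).mul p2
  have key : Ex (fun T : Co n => (X n T * Y n T - x * y) ^ 2) ≤
      (1 / δ) * Ex (fun T : Co n => (X n T - x) ^ 2) +
      δ * Ex (fun T : Co n => (X n T - x) ^ 2 * Y n T ^ 4) +
      (2 * x ^ 2) * Ex (fun T : Co n => (Y n T - y) ^ 2) := by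
    rw [← Ex_const_mul, ← Ex_const_mul, ← Ex_const_mul, ← Ex_add hn p4 p5,
      ← Ex_add hn (p4.add p5) p6]
    refine Ex_mono hn ((((hX.1 n).mul (hY.1 n)).sub (PBR.const _)).pow 2) ((p4.add p5).add p6)
      fun T => ?_
    set a := X n T - x with ha
    set b := Y n T
    have e : X n T * b - x * y = a * b + x * (b - y) := by rw [ha]; ring
    rw [e]
    have i1 : (a * b + x * (b - y)) ^ 2 ≤ 2 * (a * b) ^ 2 + 2 * (x * (b - y)) ^ 2 := by
      nlinarith [sq_nonneg (a * b - x * (b - y))]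
    have i2 : 2 * (a * b) ^ 2 ≤ (1 / δ) * a ^ 2 + δ * (a ^ 2 * b ^ 4) := by
      have h3 : 0 ≤ (1 / δ) * (a * (1 - δ * b ^ 2)) ^ 2 := by positivity
      have h4 : (1 / δ) * (a * (1 - δ * b ^ 2)) ^ 2 =
          (1 / δ) * a ^ 2 - 2 * (a * b) ^ 2 + δ * (a ^ 2 * b ^ 4) := by
        field_simp
        ring
      linarith
    nlinarith
  have h5 : δ * Ex (fun T : Co n => (X n T - x) ^ 2 * Y n T ^ 4) ≤ δ * C := by
    gcongr; exact hC n hn
  linarith

theorem Cv.congr {X Y : ∀ n, Co n → ℝ} {x y : ℝ} (hX : Cv X x) (h : ∀ n T, X n T = Y n T)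
    (hxy : x = y) : Cv Y y := by
  have : X = Y := by funext n T; exact h n T
  subst this hxy
  exact hX

theorem Cv.t_mul {j k : ℕ} {x y : ℝ} (hj : Cv (fun _ => t j) x) (hk : Cv (fun _ => t k) y) :
    Cv (fun _ T => t j T * t k T) (x * y) := by
  obtain ⟨C1, hC1, h1⟩ := M_bound (j + 2 * k)
  obtain ⟨C2, hC2, h2⟩ := M_bound (2 * k)
  refine Cv.mul hj hk (C := 2 * C1 + 2 * x ^ 2 * C2) fun n hn => ?_
  have pj := PBR.t (n := n) j
  have pk := PBR.t (n := n) k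
  have q1 : PBR (fun T : Co n => t j T ^ 2 * t k T ^ 4) := (pj.pow 2).mul (pk.pow 4)
  have q2 : PBR (fun T : Co n => t k T ^ 4) := pk.pow 4
  have b0 : ∀ T : Co n, t k T ^ 4 ≤ M (4 * k) T := by
    intro T
    calc t k T ^ 4 = |t k T| ^ 4 := by
          rw [← abs_pow, abs_of_nonneg (by positivity)]
      _ ≤ M k T ^ 4 := pow_le_pow_left₀ (abs_nonneg _) (t_abs _ _) 4
      _ ≤ M (4 * k) T := M_pow hn 4 k T
  have b1 : Ex (fun T : Co n => t j T ^ 2 * t k T ^ 4) ≤ C1 := by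
    refine h1 n hn _ q1 fun T => ?_
    have c1 : t j T ^ 2 ≤ M (2 * j) T := by
      calc t j T ^ 2 = |t j T| ^ 2 := (sq_abs _).symm
        _ ≤ M j T ^ 2 := pow_le_pow_left₀ (abs_nonneg _) (t_abs _ _) 2
        _ ≤ M (2 * j) T := M_pow hn 2 j T
    calc t j T ^ 2 * t k T ^ 4 ≤ M (2 * j) T * M (4 * k) T :=
          mul_le_mul c1 (b0 T) (by positivity) (M_nonneg _ _)
      _ ≤ M (2 * j + 4 * k) T := M_mul hn _ _ _
      _ = _ := by congr 1; ring
  have b2 : Ex (fun T : Co n => t k T ^ 4) ≤ C2 := by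
    refine h2 n hn _ q2 fun T => ?_
    refine (b0 T).trans (le_of_eq ?_)
    congr 1; ring
  have p1 : PBR (fun T : Co n => (2 : ℝ) * (t j T ^ 2 * t k T ^ 4)) := (PBR.const 2).mul q1
  have p2 : PBR (fun T : Co n => (2 * x ^ 2) * t k T ^ 4) := (PBR.const _).mul q2
  calc Ex (fun T : Co n => (t j T - x) ^ 2 * t k T ^ 4)
      ≤ Ex (fun T : Co n => 2 * (t j T ^ 2 * t k T ^ 4) + (2 * x ^ 2) * t k T ^ 4) := by
        refine Ex_mono hn (((pj.sub (PBR.const x)).pow 2).mul q2) (p1.add p2) fun T => ?_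
        have c1 : (t j T - x) ^ 2 ≤ 2 * t j T ^ 2 + 2 * x ^ 2 := by
          nlinarith [sq_nonneg (t j T + x)]
        calc (t j T - x) ^ 2 * t k T ^ 4 ≤ (2 * t j T ^ 2 + 2 * x ^ 2) * t k T ^ 4 :=
              mul_le_mul_of_nonneg_right c1 (by positivity)
          _ = _ := by ring
    _ = 2 * Ex (fun T : Co n => t j T ^ 2 * t k T ^ 4) +
        (2 * x ^ 2) * Ex (fun T : Co n => t k T ^ 4) := by
        rw [Ex_add hn p1 p2, Ex_const_mul, Ex_const_mul]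
    _ ≤ 2 * C1 + 2 * x ^ 2 * C2 := by gcongr

theorem Cv.Lk (k : ℕ) : Cv (fun _ => Lk k) 0 := by
  obtain ⟨C, hC, h⟩ := Lk_bound k
  have hu : Tendsto (fun n : ℕ => C / (n : ℝ)) atTop (𝓝 0) :=
    tendsto_const_div_atTop_nhds_zero_nat _
  refine Cv.of_le (fun n => PBR.Lk k) hu fun n hn => ?_
  have h1 := h n hn
  have hn1 : (1 : ℝ) ≤ n := by exact_mod_cast hn
  simp only [sub_zero]
  rw [le_div_iff₀ (by linarith)]
  have h2 : 0 ≤ Ex (fun T : Co n => H203R3.MM.Lk k T ^ 2) := Ex_nonneg hn fun T => sq_nonneg _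
  nlinarith

/-- second and first moments converge -/
theorem conv12 : Tendsto (fun n => Ex (fun T : Co n => t 1 T ^ 2 + (t 2 T - 2) ^ 2)) atTop (𝓝 0) := by
  obtain ⟨C, hC, hMb⟩ := M_bound 4
  have hpb : ∀ n, PBR (fun T : Co n => t 1 T ^ 2 + (t 2 T - 2) ^ 2) := fun n =>
    ((PBR.t 1).pow 2).add (((PBR.t 2).sub (PBR.const 2)).pow 2)
  have hnn : ∀ᶠ n in atTop, 0 ≤ Ex (fun T : Co n => t 1 T ^ 2 + (t 2 T - 2) ^ 2) := by
    filter_upwards [eventually_gt_atTop 0] with n hn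
    exact Ex_nonneg hn fun T => by positivity
  rw [Metric.tendsto_nhds]
  intro ε hε
  obtain ⟨Z, c, hdet⟩ := det_ineq (ε := ε / (2 * (1 + C))) (by positivity)
  set Cz : ℂ → ℝ := fun z => ((2 / |z.im| + ‖z ^ 3 - 2 * z‖) * (1 / |z.im|) ^ 3 + ‖z‖ * (1 / |z.im|) +
        2 * (‖z‖ * (1 / |z.im|) + 1)) with hCz
  have hCz0 : ∀ z, 0 ≤ Cz z := fun z => by rw [hCz]; positivity
  set D : ℝ := c * ∑ z ∈ Z, Cz z.1 with hD
  have hD0 : 0 ≤ D := by
    rw [hD]; exact mul_nonneg (Nat.cast_nonneg _) (Finset.sum_nonneg fun z _ => hCz0 _)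
  have hu : Tendsto (fun n : ℕ => D / (n : ℝ)) atTop (𝓝 0) :=
    tendsto_const_div_atTop_nhds_zero_nat _
  have hev := hu.eventually_lt_const (show (0 : ℝ) < ε / 2 by linarith)
  filter_upwards [hev, hnn, eventually_gt_atTop 0] with n h1 h2 hn
  rw [Real.dist_eq, sub_zero, abs_of_nonneg h2]
  have hn1 : (1 : ℝ) ≤ n := by exact_mod_cast hn
  have hn0 : (0 : ℝ) < n := by linarith
  have pK : ∀ z ∈ Z, PBR (fun T : Co n => ‖K z.1 T‖ ^ 2) := fun z _ =>
    PBR.normsq (PB.K z.2.ne')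
  have q1 : PBR (fun T : Co n => 1 + t 2 T ^ 4) := (PBR.const 1).add ((PBR.t 2).pow 4)
  have q2 : PBR (fun T : Co n => (ε / (2 * (1 + C))) * (1 + t 2 T ^ 4)) := (PBR.const _).mul q1
  have q3 : PBR (fun T : Co n => ∑ z ∈ Z, ‖K z.1 T‖ ^ 2) := PBR.sum Z pK
  have q4 : PBR (fun T : Co n => (c : ℝ) * ∑ z ∈ Z, ‖K z.1 T‖ ^ 2) := (PBR.const _).mul q3
  have e1 : Ex (fun T : Co n => t 1 T ^ 2 + (t 2 T - 2) ^ 2) ≤
      (ε / (2 * (1 + C))) * (1 + Ex (fun T : Co n => t 2 T ^ 4)) +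
        c * ∑ z ∈ Z, Ex (fun T : Co n => ‖K z.1 T‖ ^ 2) := by
    have := Ex_mono hn (hpb n) (q2.add q4) (fun T => hdet n hn T)
    rw [Ex_add hn q2 q4, Ex_const_mul, Ex_const_mul, Ex_sum hn Z pK,
      Ex_add hn (PBR.const 1) ((PBR.t 2).pow 4), Ex_const hn] at this
    exact this
  have e2 : Ex (fun T : Co n => t 2 T ^ 4) ≤ C := by
    refine hMb n hn _ ((PBR.t 2).pow 4) fun T => ?_
    calc t 2 T ^ 4 = |t 2 T| ^ 4 := by rw [← abs_pow, abs_of_nonneg (by positivity)]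
      _ ≤ M 2 T ^ 4 := pow_le_pow_left₀ (abs_nonneg _) (t_abs _ _) 4
      _ ≤ M (4 * 2) T := M_pow hn 4 2 T
      _ = _ := by norm_num
  have e3 : ∀ z ∈ Z, Ex (fun T : Co n => ‖K z.1 T‖ ^ 2) ≤ Cz z.1 / n := by
    intro z _
    have hK := K_bound hn z.2.ne'
    have hZ := Zn_pos (n := n) hn
    unfold Ex
    rw [div_le_div_iff₀ hZ hn0]
    change _ ≤ Cz z.1 * Zn n
    have h3 : 0 ≤ ∫ T : Co n, ‖K z.1 T‖ ^ 2 * w T :=
      integral_nonneg fun T => mul_nonneg (by positivity) (w_pos T).le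
    have h4 : (n : ℝ) ≤ (n : ℝ) ^ 2 := by nlinarith
    calc (∫ T : Co n, ‖K z.1 T‖ ^ 2 * w T) * n = (n : ℝ) * ∫ T : Co n, ‖K z.1 T‖ ^ 2 * w T :=
          mul_comm _ _
      _ ≤ (n : ℝ) ^ 2 * ∫ T : Co n, ‖K z.1 T‖ ^ 2 * w T := mul_le_mul_of_nonneg_right h4 h3
      _ ≤ _ := hK
  have e4 : (c : ℝ) * ∑ z ∈ Z, Ex (fun T : Co n => ‖K z.1 T‖ ^ 2) ≤ D / n := by
    have h5 := Finset.sum_le_sum e3
    rw [← Finset.sum_div] at h5
    calc (c : ℝ) * ∑ z ∈ Z, Ex (fun T : Co n => ‖K z.1 T‖ ^ 2) ≤ c * ((∑ z ∈ Z, Cz z.1) / n) := by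
          gcongr
      _ = D / n := by rw [hD]; ring
  have e5 : (ε / (2 * (1 + C))) * (1 + Ex (fun T : Co n => t 2 T ^ 4)) ≤ ε / 2 := by
    calc (ε / (2 * (1 + C))) * (1 + Ex (fun T : Co n => t 2 T ^ 4)) ≤
          (ε / (2 * (1 + C))) * (1 + C) := by gcongr
      _ = ε / 2 := by field_simp
  linarith

theorem conv1 : Cv (fun _ => t 1) 0 := by
  refine Cv.of_le (fun n => PBR.t 1) conv12 fun n hn => ?_
  refine Ex_mono hn (((PBR.t 1).sub (PBR.const 0)).pow 2)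
    (((PBR.t 1).pow 2).add (((PBR.t 2).sub (PBR.const 2)).pow 2)) fun T => ?_
  nlinarith [sq_nonneg (t 2 T - 2)]

theorem conv2 : Cv (fun _ => t 2) 2 := by
  refine Cv.of_le (fun n => PBR.t 2) conv12 fun n hn => ?_
  refine Ex_mono hn (((PBR.t 2).sub (PBR.const 2)).pow 2)
    (((PBR.t 1).pow 2).add (((PBR.t 2).sub (PBR.const 2)).pow 2)) fun T => ?_
  nlinarith [sq_nonneg (t 1 T)]

theorem conv0 : Cv (fun _ => t 0) 1 := by
  refine Cv.of_le (u := fun _ => 0) (fun n => PBR.t 0) tendsto_const_nhds fun n hn => ?_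
  have : (fun T : Co n => (t 0 T - 1) ^ 2) = fun _ => 0 := by
    funext T; rw [t_zero hn]; ring
  rw [this, Ex_const hn]

/-- Convergence of all moments to any solution of the limiting recursion. -/
theorem conv_all {mo : ℕ → ℝ} (h0 : mo 0 = 1) (h1 : mo 1 = 0) (h2 : mo 2 = 2)
    (hr : ∀ k, mo (k + 3) = 2 * mo (k + 1) + ∑ j ∈ Finset.range k, mo j * mo (k - 1 - j)) (k : ℕ) :
    Cv (fun _ => t k) (mo k) := by
  induction k using Nat.strong_induction_on with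
  | _ k ih =>
    match k, ih with
    | 0, _ => rw [h0]; exact conv0
    | 1, _ => rw [h1]; exact conv1
    | 2, _ => rw [h2]; exact conv2
    | k + 3, ih =>
      have c1 := (ih (k + 1) (by omega)).const_mul 2
      have c2 := Cv.sum k (X := fun j _ T => t j T * t (k - 1 - j) T)
        (x := fun j => mo j * mo (k - 1 - j)) fun j hj =>
          Cv.t_mul (ih j (by omega)) (ih (k - 1 - j) (by omega))
      have c3 := (Cv.Lk k).const_mul (-1)
      refine ((c1.add c2).add c3).congr (fun n T => ?_) ?_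
      · unfold H203R3.MM.Lk; ring
      · rw [hr]; ring

end H203R3.MM
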