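import Mathlib

open scoped BigOperators Matrix

set_option linter.unusedSectionVars false

namespace H203R3.MM

variable {n : ℕ}

/-- real coordinates on the Hermitian `n × n` matrices -/
abbrev Co (n : ℕ) : Type := Fin n × Fin n → ℝ

/-- complex `n × n` matrices -/
abbrev Mat (n : ℕ) : Type := Matrix (Fin n) (Fin n) ℂ

/-- The Hermitian matrix with coordinates `T`: diagonal entries `T_jj`, and
`(T_jk + i T_kj) / √2` for `j < k`. It is an isometry of `ℝ^(n²)` onto the Hermitian matrices
with the Hilbert-Schmidt norm. -/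
noncomputable def herm (T : Co n) : Mat n := fun j k =>
  if j = k then (T (j, j) : ℂ)
  else if j < k then ((T (j, k) : ℂ) + Complex.I * (T (k, j) : ℂ)) / ((Real.sqrt 2 : ℝ) : ℂ)
  else ((T (k, j) : ℂ) - Complex.I * (T (j, k) : ℂ)) / ((Real.sqrt 2 : ℝ) : ℂ)

theorem herm_add (S T : Co n) : herm (S + T) = herm S + herm T := by
  ext j k
  simp only [herm, Matrix.add_apply, Pi.add_apply]
  split_ifs <;> push_cast <;> ring

theorem herm_smul (c : ℝ) (T : Co n) : herm (c • T) = (c : ℂ) • herm T := by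
  ext j k
  simp only [herm, Matrix.smul_apply, Pi.smul_apply, smul_eq_mul]
  split_ifs <;> push_cast <;> ring

theorem herm_star (T : Co n) : star (herm T) = herm T := by
  ext j k
  rw [Matrix.star_apply]
  simp only [herm]
  rcases lt_trichotomy j k with h | h | h
  · rw [if_neg (ne_of_gt h), if_neg (not_lt.mpr h.le), if_neg (ne_of_lt h), if_pos h]
    simp
  · subst h; simp
  · rw [if_neg (ne_of_lt h), if_pos h, if_neg (ne_of_gt h), if_neg (not_lt.mpr h.le)]
    simp [sub_eq_add_neg]

/-- orthonormal basis of the Hermitian matrices -/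
noncomputable def B (a : Fin n × Fin n) : Mat n := herm (Pi.single a 1)

theorem B_star (a : Fin n × Fin n) : star (B a) = B a := herm_star _

/-- indicator -/
noncomputable def e (a b : Fin n × Fin n) : ℂ := if a = b then 1 else 0

theorem sum_e (b c : Fin n × Fin n) : ∑ a, e a b * e a c = e b c := by
  simp only [e, ite_mul, one_mul, zero_mul]
  rw [Finset.sum_ite_eq' Finset.univ b]
  simp

theorem sum_ee (α β γ δ : ℂ) (b b' c c' : Fin n × Fin n) :
    ∑ a, (α * e a b + β * e a b') * (γ * e a c + δ * e a c') =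
      α * γ * e b c + α * δ * e b c' + β * γ * e b' c + β * δ * e b' c' := by
  have : ∀ a, (α * e a b + β * e a b') * (γ * e a c + δ * e a c') =
      α * γ * (e a b * e a c) + α * δ * (e a b * e a c') + β * γ * (e a b' * e a c) +
        β * δ * (e a b' * e a c') := fun a => by ring
  simp only [this, Finset.sum_add_distrib, ← Finset.mul_sum, sum_e]

theorem single_e (a b : Fin n × Fin n) : (((Pi.single a 1 : Co n) b : ℝ) : ℂ) = e a b := by
  by_cases h : a = b
  · subst h; simp [e]
  · simp [e, h, Pi.single_apply, Ne.symm h]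

/-- coefficient form of the entries of `B a` -/
theorem B_apply (a : Fin n × Fin n) (j k : Fin n) : B a j k =
    (if j = k then 1 else if j < k then 1 / ((Real.sqrt 2 : ℝ) : ℂ)
      else -Complex.I / ((Real.sqrt 2 : ℝ) : ℂ)) * e a (j, k) +
    (if j = k then 0 else if j < k then Complex.I / ((Real.sqrt 2 : ℝ) : ℂ)
      else 1 / ((Real.sqrt 2 : ℝ) : ℂ)) * e a (k, j) := by
  simp only [B, herm, single_e]
  split_ifs with h1 h2
  · subst h1; ring
  · ring
  · ring

theorem e_self (a : Fin n × Fin n) : e a a = 1 := by simp [e]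

theorem e_ne {a b : Fin n × Fin n} (h : a ≠ b) : e a b = 0 := by simp [e, h]

/-- completeness relation -/
theorem core (i j k l : Fin n) : ∑ a, B a i j * B a k l = if i = l ∧ j = k then 1 else 0 := by
  simp only [B_apply, sum_ee]
  have h2 : ((Real.sqrt 2 : ℝ) : ℂ) * ((Real.sqrt 2 : ℝ) : ℂ) = 2 := by
    rw [← Complex.ofReal_mul, Real.mul_self_sqrt (by norm_num)]; norm_num
  have h3 : ((Real.sqrt 2 : ℝ) : ℂ) ≠ 0 := by
    intro h; rw [h] at h2; norm_num at h2
  have hI : Complex.I * Complex.I = -1 := Complex.I_mul_I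
  have hI2 : Complex.I ^ 2 = -1 := Complex.I_sq
  have h2' : ((Real.sqrt 2 : ℝ) : ℂ) ^ 2 = 2 := by rw [sq]; exact h2
  by_cases hA : i = l ∧ j = k
  · obtain ⟨h1', h2''⟩ := hA
    subst h1' h2''
    rw [if_pos (And.intro rfl rfl)]
    have hs : (1 / ((Real.sqrt 2 : ℝ) : ℂ)) * (1 / ((Real.sqrt 2 : ℝ) : ℂ)) = 1 / 2 := by
      rw [div_mul_div_comm, h2]; norm_num
    rcases lt_trichotomy i j with h | h | h
    · simp only [ne_of_lt h, ne_of_gt h, h, not_lt.mpr h.le, if_true, if_false, e_self,
        e_ne (show (i, j) ≠ (j, i) from fun hh => (ne_of_lt h) (Prod.mk.inj hh).1),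
        e_ne (show (j, i) ≠ (i, j) from fun hh => (ne_of_gt h) (Prod.mk.inj hh).1)]
      linear_combination (1 - Complex.I * Complex.I) * hs - (1 / 2) * hI
    · subst h; simp [e_self]
    · simp only [ne_of_lt h, ne_of_gt h, h, not_lt.mpr h.le, if_true, if_false, e_self,
        e_ne (show (i, j) ≠ (j, i) from fun hh => (ne_of_gt h) (Prod.mk.inj hh).1),
        e_ne (show (j, i) ≠ (i, j) from fun hh => (ne_of_lt h) (Prod.mk.inj hh).1)]
      linear_combination (1 - Complex.I * Complex.I) * hs - (1 / 2) * hI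
  · rw [if_neg hA]
    by_cases hB : i = k ∧ j = l
    · obtain ⟨rfl, rfl⟩ := hB
      have hij : i ≠ j := fun h => hA ⟨h, h.symm⟩
      rcases lt_or_gt_of_ne hij with h | h
      · simp only [ne_of_lt h, h, if_true, if_false, e_self,
          e_ne (show (i, j) ≠ (j, i) from fun hh => (ne_of_lt h) (Prod.mk.inj hh).1),
          e_ne (show (j, i) ≠ (i, j) from fun hh => (ne_of_gt h) (Prod.mk.inj hh).1)]
        field_simp
        simp [hI2]
      · simp only [ne_of_gt h, not_lt.mpr h.le, if_false, e_self,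
          e_ne (show (i, j) ≠ (j, i) from fun hh => (ne_of_gt h) (Prod.mk.inj hh).1),
          e_ne (show (j, i) ≠ (i, j) from fun hh => (ne_of_lt h) (Prod.mk.inj hh).1)]
        field_simp
        simp [hI2]
    · rw [e_ne (show (i, j) ≠ (k, l) from fun hh => hB ⟨(Prod.mk.inj hh).1, (Prod.mk.inj hh).2⟩),
        e_ne (show (i, j) ≠ (l, k) from fun hh => hA ⟨(Prod.mk.inj hh).1, (Prod.mk.inj hh).2⟩),
        e_ne (show (j, i) ≠ (k, l) from fun hh => hA ⟨(Prod.mk.inj hh).2, (Prod.mk.inj hh).1⟩),
        e_ne (show (j, i) ≠ (l, k) from fun hh => hB ⟨(Prod.mk.inj hh).2, (Prod.mk.inj hh).1⟩)]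
      ring

/-- `∑_a tr(B_a X) tr(B_a Y) = tr(X Y)` -/
theorem sum_tr_tr (X Y : Mat n) :
    ∑ a, (B a * X).trace * (B a * Y).trace = (X * Y).trace := by
  have h1 : ∀ (a : Fin n × Fin n) (X : Mat n), (B a * X).trace = ∑ i, ∑ j, B a i j * X j i := by
    intro a X
    simp [Matrix.trace, Matrix.mul_apply]
  simp only [h1]
  have h2 : ∀ a : Fin n × Fin n, (∑ i, ∑ j, B a i j * X j i) * (∑ k, ∑ l, B a k l * Y l k) =
      ∑ k, ∑ l, ∑ i, ∑ j, (B a i j * B a k l) * (X j i * Y l k) := by
    intro a
    simp only [Finset.sum_mul, Finset.mul_sum]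
    refine Finset.sum_congr rfl fun i _ => Finset.sum_congr rfl fun j _ =>
      Finset.sum_congr rfl fun k _ => Finset.sum_congr rfl fun l _ => by ring
  simp only [h2]
  rw [Finset.sum_comm]
  have h3 : ∀ k : Fin n, ∑ a, ∑ l, ∑ i, ∑ j, (B a i j * B a k l) * (X j i * Y l k) =
      ∑ l, X k l * Y l k := by
    intro k
    rw [Finset.sum_comm]
    refine Finset.sum_congr rfl fun l _ => ?_
    rw [Finset.sum_comm]
    have h4 : ∀ i : Fin n, ∑ a, ∑ j, (B a i j * B a k l) * (X j i * Y l k) =
        if i = l then X k l * Y l k else 0 := by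
      intro i
      rw [Finset.sum_comm]
      simp only [← Finset.sum_mul, core]
      by_cases hk : i = l
      · subst hk; simp
      · simp [hk]
    simp only [h4]
    simp
  simp only [h3]
  simp only [Matrix.trace, Matrix.diag_apply, Matrix.mul_apply]

/-- `∑_a tr(B_a X B_a Y) = tr X tr Y` -/
theorem sum_tr_mul (X Y : Mat n) :
    ∑ a, (B a * X * B a * Y).trace = X.trace * Y.trace := by
  have h1 : ∀ (a : Fin n × Fin n), (B a * X * B a * Y).trace =
      ∑ i, ∑ j, ∑ k, ∑ l, (B a i j * B a k l) * (X j k * Y l i) := by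
    intro a
    simp only [Matrix.trace, Matrix.diag_apply, Matrix.mul_apply, Finset.sum_mul]
    refine Finset.sum_congr rfl fun i _ => ?_
    rw [Finset.sum_comm]
    have : ∀ k : Fin n, ∑ l, ∑ j, B a i j * X j k * B a k l * Y l i =
      ∑ j, ∑ l, (B a i j * B a k l) * (X j k * Y l i) := by
      intro k
      rw [Finset.sum_comm]
      refine Finset.sum_congr rfl fun j _ => Finset.sum_congr rfl fun l _ => by ring
    calc _ = ∑ k, ∑ l, ∑ j, B a i j * X j k * B a k l * Y l i := ?_
      _ = ∑ k, ∑ j, ∑ l, (B a i j * B a k l) * (X j k * Y l i) := by simp only [this]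
      _ = _ := Finset.sum_comm
    rfl
  simp only [h1]
  rw [Finset.sum_comm]
  have h3 : ∀ i : Fin n, ∑ a, ∑ j, ∑ k, ∑ l, (B a i j * B a k l) * (X j k * Y l i) =
      ∑ j, X j j * Y i i := by
    intro i
    rw [Finset.sum_comm]
    refine Finset.sum_congr rfl fun j _ => ?_
    rw [Finset.sum_comm]
    have h4 : ∀ k : Fin n, ∑ a, ∑ l, (B a i j * B a k l) * (X j k * Y l i) =
        if j = k then X j j * Y i i else 0 := by
      intro k
      rw [Finset.sum_comm]
      simp only [← Finset.sum_mul, core]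
      by_cases hk : j = k
      · subst hk; simp
      · simp [hk]
    simp only [h4]
    simp
  simp only [h3]
  simp only [Matrix.trace, Matrix.diag_apply, Finset.sum_mul, Finset.mul_sum]

end H203R3.MM
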