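import Mathlib

open scoped Topology
open Filter Polynomial

set_option linter.unusedSectionVars false

namespace H203R3.MM

/-- the discriminant polynomial -/
def Dz (p q : ℝ) (z : ℂ) : ℂ := z ^ 6 - 4 * z ^ 4 + p * z + q

/-- its derivative -/
def Dz' (p : ℝ) (z : ℂ) : ℂ := 6 * z ^ 5 - 16 * z ^ 3 + p

theorem lin_zero {α : ℂ} (hα : α.im ≠ 0) {X Y : ℝ} (h : (X : ℂ) * α + (Y : ℂ) = 0) : X = 0 ∧ Y = 0 := by
  have h1 := congrArg Complex.im h
  simp only [Complex.add_im, Complex.im_ofReal_mul, Complex.ofReal_im, add_zero,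
    Complex.zero_im] at h1
  have hX : X = 0 := (mul_eq_zero.mp h1).resolve_right hα
  refine ⟨hX, ?_⟩
  rw [hX] at h
  simpa using h

/-- no nonreal double root -/
theorem no_double {p q : ℝ} {α : ℂ} (hα : α.im ≠ 0) (h0 : Dz p q α = 0) (h1 : Dz' p α = 0) :
    False := by
  set u : ℝ := 2 * α.re with hu
  set v : ℝ := α.re ^ 2 + α.im ^ 2 with hv
  have hsq : α ^ 2 = (u : ℂ) * α - (v : ℂ) := by
    apply Complex.ext
    · simp [hu, hv, pow_two]; ring
    · simp [hu, hv, pow_two]; ring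
  have hvpos : 0 < v := by rw [hv]; positivity
  have hdisc : u ^ 2 < 4 * v := by
    have : 0 < α.im ^ 2 := by positivity
    rw [hu, hv]; nlinarith
  have h3 : α ^ 3 = ((u ^ 2 - v : ℝ) : ℂ) * α + ((-(u * v) : ℝ) : ℂ) := by
    push_cast
    linear_combination (α + (u : ℂ)) * hsq
  have h4 : α ^ 4 = ((u ^ 3 - 2 * u * v : ℝ) : ℂ) * α + ((-((u ^ 2 - v) * v) : ℝ) : ℂ) := by
    push_cast at h3 ⊢
    linear_combination α * h3 + ((u : ℂ) ^ 2 - v) * hsq
  have h5 : α ^ 5 = ((u ^ 4 - 3 * u ^ 2 * v + v ^ 2 : ℝ) : ℂ) * α +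
      ((-((u ^ 3 - 2 * u * v) * v) : ℝ) : ℂ) := by
    push_cast at h4 ⊢
    linear_combination α * h4 + ((u : ℂ) ^ 3 - 2 * u * v) * hsq
  have h6 : α ^ 6 = ((u ^ 5 - 4 * u ^ 3 * v + 3 * u * v ^ 2 : ℝ) : ℂ) * α +
      ((-((u ^ 4 - 3 * u ^ 2 * v + v ^ 2) * v) : ℝ) : ℂ) := by
    push_cast at h5 ⊢
    linear_combination α * h5 + ((u : ℂ) ^ 4 - 3 * u ^ 2 * v + v ^ 2) * hsq
  unfold Dz at h0
  unfold Dz' at h1
  rw [h6, h4] at h0
  rw [h5, h3] at h1
  have g1 := lin_zero hα (X := 6 * (u ^ 4 - 3 * u ^ 2 * v + v ^ 2) - 16 * (u ^ 2 - v))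
    (Y := 6 * (-((u ^ 3 - 2 * u * v) * v)) - 16 * (-(u * v)) + p)
    (by push_cast at h1 ⊢; linear_combination h1)
  have g0 := lin_zero hα (X := (u ^ 5 - 4 * u ^ 3 * v + 3 * u * v ^ 2) -
      4 * (u ^ 3 - 2 * u * v) + p)
    (Y := (-((u ^ 4 - 3 * u ^ 2 * v + v ^ 2) * v)) - 4 * (-((u ^ 2 - v) * v)) + q)
    (by push_cast at h0 ⊢; linear_combination h0)
  obtain ⟨i1, i2⟩ := g1
  obtain ⟨j1, j2⟩ := g0
  have hp : p = 6 * ((u ^ 3 - 2 * u * v) * v) - 16 * (u * v) := by linarith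
  rw [hp] at j1
  have hj : u * (u ^ 4 + 2 * u ^ 2 * v - 9 * v ^ 2 - 4 * u ^ 2 - 8 * v) = 0 := by
    linear_combination j1
  rcases mul_eq_zero.mp hj with hu0 | hu1
  · rw [hu0] at i1
    nlinarith
  · have hfac : (u ^ 2 - 4 * v) * (2 * u ^ 2 - 3 * v - 4) = 0 := by
      linear_combination (1 / 2) * i1 - hu1
    have hne : u ^ 2 - 4 * v ≠ 0 := by linarith
    have h2w := (mul_eq_zero.mp hfac).resolve_left hne
    have hw : u ^ 2 = (3 * v + 4) / 2 := by linarith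
    have hfin : -15 * v ^ 2 - 16 * v - 16 = 0 := by
      have e : u ^ 4 = (u ^ 2) ^ 2 := by ring
      rw [e, hw] at i1
      linear_combination 2 * i1
    nlinarith

/-- a monic real polynomial all of whose complex roots are real is a product of linear factors -/
theorem real_split (n : ℕ) : ∀ P : ℝ[X], P.Monic → P.natDegree = n →
    (∀ z : ℂ, aeval z P = 0 → z.im = 0) →
    ∃ s : Multiset ℝ, s.card = n ∧ P = (s.map fun r => X - C r).prod := by
  induction n with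
  | zero =>
    intro P hP hd _
    exact ⟨0, rfl, by simpa using hP.natDegree_eq_zero.mp hd⟩
  | succ n ih =>
    intro P hP hd hr
    have hdeg : (P.map (algebraMap ℝ ℂ)).degree ≠ 0 := by
      rw [Polynomial.degree_map, Polynomial.degree_eq_natDegree hP.ne_zero, hd]
      exact_mod_cast Nat.succ_ne_zero n
    obtain ⟨z, hz⟩ := IsAlgClosed.exists_root _ hdeg
    have hz' : aeval z P = 0 := by
      rw [Polynomial.IsRoot, Polynomial.eval_map, ← Polynomial.aeval_def] at hz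
      exact hz
    have him := hr z hz'
    have hzr : z = ((z.re : ℝ) : ℂ) := by apply Complex.ext <;> simp [him]
    have hroot : P.IsRoot z.re := by
      rw [hzr] at hz'
      have h1 : aeval ((z.re : ℝ) : ℂ) P = ((P.eval z.re : ℝ) : ℂ) := by
        have := Polynomial.aeval_algebraMap_apply ℂ z.re P
        simpa using this
      rw [h1] at hz'
      exact Complex.ofReal_eq_zero.mp hz'
    obtain ⟨Q, hQ⟩ := Polynomial.dvd_iff_isRoot.mpr hroot
    have hQm : Q.Monic := (Polynomial.monic_X_sub_C z.re).of_mul_monic_left (hQ ▸ hP)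
    have hQd : Q.natDegree = n := by
      have h1 := (Polynomial.monic_X_sub_C z.re).natDegree_mul hQm
      rw [← hQ, hd, Polynomial.natDegree_X_sub_C] at h1
      omega
    obtain ⟨s, hs1, hs2⟩ := ih Q hQm hQd fun y hy => hr y (by rw [hQ, map_mul, hy, mul_zero])
    exact ⟨z.re ::ₘ s, by simp [hs1], by rw [Multiset.map_cons, Multiset.prod_cons, ← hs2, ← hQ]⟩

theorem mcs {s : Multiset ℝ} {n : ℕ} (h : s.card = n + 1) : ∃ a t, s = a ::ₘ t ∧ t.card = n := by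
  have h0 : 0 < s.card := by omega
  obtain ⟨a, ha⟩ := Multiset.card_pos_iff_exists_mem.mp h0
  obtain ⟨t, rfl⟩ := Multiset.exists_cons_of_mem ha
  exact ⟨a, t, rfl, by simpa using h⟩



theorem coeffs {e1 e2 e3 e4 e5 e6 p q : ℝ}
    (h : ∀ x : ℝ, x ^ 6 - 4 * x ^ 4 + p * x + q =
      x ^ 6 - e1 * x ^ 5 + e2 * x ^ 4 - e3 * x ^ 3 + e4 * x ^ 2 - e5 * x + e6) :
    e1 = 0 ∧ e2 = -4 ∧ e3 = 0 ∧ e4 = 0 := by
  have y0 := h 0
  have y1 := h 1
  have y2 := h (-1)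
  have y3 := h 2
  have y4 := h (-2)
  have y5 := h 3
  norm_num at y0 y1 y2 y3 y4 y5
  refine ⟨?_, ?_, ?_, ?_⟩ <;> linarith

theorem prod6 (a b c d e f x : ℝ) :
    (x - a) * ((x - b) * ((x - c) * ((x - d) * ((x - e) * (x - f))))) =
      x ^ 6 - (a + b + c + d + e + f) * x ^ 5 +
      (a*b + a*c + a*d + a*e + a*f + b*c + b*d + b*e + b*f + c*d + c*e + c*f + d*e + d*f + e*f)
        * x ^ 4 -
      (a*b*c + a*b*d + a*b*e + a*b*f + a*c*d + a*c*e + a*c*f + a*d*e + a*d*f + a*e*f +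
        b*c*d + b*c*e + b*c*f + b*d*e + b*d*f + b*e*f + c*d*e + c*d*f + c*e*f + d*e*f) * x ^ 3 +
      (a*b*c*d + a*b*c*e + a*b*c*f + a*b*d*e + a*b*d*f + a*b*e*f + a*c*d*e + a*c*d*f +
        a*c*e*f + a*d*e*f + b*c*d*e + b*c*d*f + b*c*e*f + b*d*e*f + c*d*e*f) * x ^ 2 -
      (a*b*c*d*e + a*b*c*d*f + a*b*c*e*f + a*b*d*e*f + a*c*d*e*f + b*c*d*e*f) * x +
      a*b*c*d*e*f := by ring

theorem psum {a b c d e f : ℝ} (z1 : a + b + c + d + e + f = 0)
    (z2 : a*b + a*c + a*d + a*e + a*f + b*c + b*d + b*e + b*f + c*d + c*e + c*f + d*e + d*f + e*f = -4)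
    (z3 : a*b*c + a*b*d + a*b*e + a*b*f + a*c*d + a*c*e + a*c*f + a*d*e + a*d*f + a*e*f +
        b*c*d + b*c*e + b*c*f + b*d*e + b*d*f + b*e*f + c*d*e + c*d*f + c*e*f + d*e*f = 0)
    (z4 : a*b*c*d + a*b*c*e + a*b*c*f + a*b*d*e + a*b*d*f + a*b*e*f + a*c*d*e + a*c*d*f +
        a*c*e*f + a*d*e*f + b*c*d*e + b*c*d*f + b*c*e*f + b*d*e*f + c*d*e*f = 0) :
    a^2 + b^2 + c^2 + d^2 + e^2 + f^2 = 8 ∧ a^3 + b^3 + c^3 + d^3 + e^3 + f^3 = 0 ∧
    a^4 + b^4 + c^4 + d^4 + e^4 + f^4 = 32 := by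
  have P2 : a^2 + b^2 + c^2 + d^2 + e^2 + f^2 = 8 := by
    linear_combination (a + b + c + d + e + f) * z1 - 2 * z2
  have P3 : a^3 + b^3 + c^3 + d^3 + e^3 + f^3 = 0 := by
    linear_combination (a^2 + b^2 + c^2 + d^2 + e^2 + f^2) * z1 - (a + b + c + d + e + f) * z2 +
      3 * z3 + 4 * z1
  refine ⟨P2, P3, ?_⟩
  linear_combination (a^3 + b^3 + c^3 + d^3 + e^3 + f^3) * z1
    - (a^2 + b^2 + c^2 + d^2 + e^2 + f^2) * z2 + (a + b + c + d + e + f) * z3 - 4 * z4 + 4 * P2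


theorem fin6 {a b c d e f p q : ℝ} (P1 : a + b + c + d + e + f = 0)
    (P2 : a^2 + b^2 + c^2 + d^2 + e^2 + f^2 = 8) (P3 : a^3 + b^3 + c^3 + d^3 + e^3 + f^3 = 0)
    (P4 : a^4 + b^4 + c^4 + d^4 + e^4 + f^4 = 32)
    (ra : a ^ 6 - 4 * a ^ 4 + p * a + q = 0) (rb : b ^ 6 - 4 * b ^ 4 + p * b + q = 0)
    (rc : c ^ 6 - 4 * c ^ 4 + p * c + q = 0) (rd : d ^ 6 - 4 * d ^ 4 + p * d + q = 0)
    (re : e ^ 6 - 4 * e ^ 4 + p * e + q = 0) (rf : f ^ 6 - 4 * f ^ 4 + p * f + q = 0) :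
    p = 0 ∧ q = 0 := by
  have S1 : (a * (a^2 - 4))^2 + (b * (b^2 - 4))^2 + (c * (c^2 - 4))^2 + (d * (d^2 - 4))^2 +
      (e * (e^2 - 4))^2 + (f * (f^2 - 4))^2 = -6 * q := by
    linear_combination ra + rb + rc + rd + re + rf - 4 * P4 + 16 * P2 - p * P1
  have S2 : (a^2 * (a^2 - 4))^2 + (b^2 * (b^2 - 4))^2 + (c^2 * (c^2 - 4))^2 + (d^2 * (d^2 - 4))^2 +
      (e^2 * (e^2 - 4))^2 + (f^2 * (f^2 - 4))^2 = 16 * q := by
    linear_combination (a^2 - 4) * ra + (b^2 - 4) * rb + (c^2 - 4) * rc + (d^2 - 4) * rd +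
      (e^2 - 4) * re + (f^2 - 4) * rf - p * P3 - q * P2 + 4 * p * P1
  have A1 := sq_nonneg (a * (a^2 - 4))
  have A2 := sq_nonneg (b * (b^2 - 4))
  have A3 := sq_nonneg (c * (c^2 - 4))
  have A4 := sq_nonneg (d * (d^2 - 4))
  have A5 := sq_nonneg (e * (e^2 - 4))
  have A6 := sq_nonneg (f * (f^2 - 4))
  have B1 := sq_nonneg (a^2 * (a^2 - 4))
  have B2 := sq_nonneg (b^2 * (b^2 - 4))
  have B3 := sq_nonneg (c^2 * (c^2 - 4))
  have B4 := sq_nonneg (d^2 * (d^2 - 4))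
  have B5 := sq_nonneg (e^2 * (e^2 - 4))
  have B6 := sq_nonneg (f^2 * (f^2 - 4))
  have hq : q = 0 := by linarith
  refine ⟨?_, hq⟩
  rw [hq, mul_zero] at S1
  have hz : ∀ r : ℝ, (r * (r^2 - 4))^2 = 0 → r ^ 6 - 4 * r ^ 4 + p * r + q = 0 → p * r = 0 := by
    intro r h1 h2
    have h3 : r * (r^2 - 4) = 0 := pow_eq_zero_iff (two_ne_zero) |>.mp h1
    rw [hq] at h2
    linear_combination h2 - r ^ 3 * h3
  have ka := hz a (by linarith) ra
  have kb := hz b (by linarith) rb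
  have kc := hz c (by linarith) rc
  have kd := hz d (by linarith) rd
  have ke := hz e (by linarith) re
  have kf := hz f (by linarith) rf
  have h8 : p * 8 = 0 := by
    linear_combination a * ka + b * kb + c * kc + d * kd + e * ke + f * kf - p * P2
  linarith

/-- the real polynomial -/
noncomputable def PP (p q : ℝ) : ℝ[X] := X ^ 6 + (- (C 4 * X ^ 4) + (C p * X + C q))

theorem PP_low (p q : ℝ) : (- (C 4 * X ^ 4) + (C p * X + C q) : ℝ[X]).degree < 6 := by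
  have h1 : (- (C 4 * X ^ 4) : ℝ[X]).degree ≤ 4 := by
    rw [degree_neg]; exact degree_C_mul_X_pow_le 4 4
  have h2 : (C p * X + C q : ℝ[X]).degree ≤ 1 := degree_linear_le
  refine (degree_add_le _ _).trans_lt (max_lt (h1.trans_lt (by norm_num)) (h2.trans_lt (by norm_num)))

theorem PP_monic (p q : ℝ) : (PP p q).Monic := by
  unfold PP
  exact monic_X_pow_add (PP_low p q)

theorem PP_deg (p q : ℝ) : (PP p q).natDegree = 6 := by
  unfold PP
  have h := degree_add_eq_left_of_degree_lt (p := (X ^ 6 : ℝ[X]))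
    (q := (- (C 4 * X ^ 4) + (C p * X + C q) : ℝ[X])) (by rw [degree_X_pow]; exact PP_low p q)
  rw [degree_X_pow] at h
  exact natDegree_eq_of_degree_eq_some h

theorem PP_aeval (p q : ℝ) (z : ℂ) : aeval z (PP p q) = Dz p q z := by
  unfold PP Dz
  simp only [map_add, map_neg, map_mul, map_pow, aeval_X, aeval_C, Complex.coe_algebraMap]
  push_cast
  ring

theorem PP_eval (p q x : ℝ) : (PP p q).eval x = x ^ 6 - 4 * x ^ 4 + p * x + q := by
  unfold PP
  simp only [eval_add, eval_neg, eval_mul, eval_pow, eval_X, eval_C]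
  ring

theorem Dz_conj (p q : ℝ) (z : ℂ) : Dz p q ((starRingEnd ℂ) z) = (starRingEnd ℂ) (Dz p q z) := by
  unfold Dz
  rw [map_add, map_add, map_sub, map_mul, map_mul, map_pow, map_pow, Complex.conj_ofReal,
    Complex.conj_ofReal]
  congr 3
  congr 1
  exact (map_ofNat (starRingEnd ℂ) 4).symm

theorem six_roots {s : Multiset ℝ} (hs : s.card = 6) :
    ∃ a b c d e f : ℝ, s = a ::ₘ b ::ₘ c ::ₘ d ::ₘ e ::ₘ f ::ₘ 0 := by
  obtain ⟨a, s1, rfl, hc1⟩ := mcs hs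
  obtain ⟨b, s2, rfl, hc2⟩ := mcs hc1
  obtain ⟨c, s3, rfl, hc3⟩ := mcs hc2
  obtain ⟨d, s4, rfl, hc4⟩ := mcs hc3
  obtain ⟨e, s5, rfl, hc5⟩ := mcs hc4
  obtain ⟨f, s6, rfl, hc6⟩ := mcs hc5
  exact ⟨a, b, c, d, e, f, by rw [Multiset.card_eq_zero.mp hc6]⟩

theorem real_fin {p q a b c d e f : ℝ} (hx : ∀ x : ℝ, x ^ 6 - 4 * x ^ 4 + p * x + q =
      (x - a) * ((x - b) * ((x - c) * ((x - d) * ((x - e) * (x - f)))))) : p = 0 ∧ q = 0 := by
  have hx' := hx
  simp only [prod6] at hx'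
  obtain ⟨z1, z2, z3, z4⟩ := coeffs hx'
  obtain ⟨P2, P3, P4⟩ := psum z1 z2 z3 z4
  have ra := hx a
  have rb := hx b
  have rc := hx c
  have rd := hx d
  have re := hx e
  have rf := hx f
  simp only [sub_self, mul_zero, zero_mul] at ra rb rc rd re rf
  exact fin6 z1 P2 P3 P4 ra rb rc rd re rf

/-- The key algebraic fact: if every root of `z^6 - 4 z^4 + p z + q` in the upper half plane is
multiple then `p = q = 0`. -/
theorem key_alg {p q : ℝ} (h : ∀ α : ℂ, 0 < α.im → Dz p q α = 0 → Dz' p α = 0) :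
    p = 0 ∧ q = 0 := by
  have hup : ∀ α : ℂ, 0 < α.im → Dz p q α ≠ 0 := fun α hα h0 =>
    no_double hα.ne' h0 (h α hα h0)
  have hreal : ∀ z : ℂ, aeval z (PP p q) = 0 → z.im = 0 := by
    intro z hz
    rw [PP_aeval] at hz
    rcases lt_trichotomy z.im 0 with h1 | h1 | h1
    · exfalso
      refine hup ((starRingEnd ℂ) z) (by simpa using h1) ?_
      rw [Dz_conj, hz, map_zero]
    · exact h1
    · exact absurd hz (hup z h1)
  obtain ⟨s, hs1, hs2⟩ := real_split 6 (PP p q) (PP_monic p q) (PP_deg p q) hreal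
  obtain ⟨a, b, c, d, e, f, rfl⟩ := six_roots hs1
  refine real_fin (a := a) (b := b) (c := c) (d := d) (e := e) (f := f) fun x => ?_
  rw [← PP_eval, hs2]
  simp only [Multiset.map_cons, Multiset.prod_cons, Multiset.map_zero, Multiset.prod_zero,
    mul_one, eval_mul, eval_sub, eval_X, eval_C]

/-- uniqueness of the solution of the limiting loop equation -/
theorem key_limit {p q : ℝ} {W : ℂ → ℂ} (hW : ∀ z : ℂ, 0 < z.im → W z ^ 2 = Dz p q z)
    (hL : ∀ α : ℂ, 0 < α.im → ∃ L : ℝ, ∀ s : ℝ, 0 < s → s ≤ 1 → ‖W (α + s) - W α‖ ≤ L * s) :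
    p = 0 ∧ q = 0 := by
  refine key_alg fun α hα h0 => ?_
  obtain ⟨L, hL⟩ := hL α hα
  have hWα : W α = 0 := by
    have := hW α hα
    rw [h0] at this
    exact pow_eq_zero_iff (two_ne_zero) |>.mp this
  -- derivative along the real direction
  have hder : HasDerivAt (fun z : ℂ => Dz p q z) (Dz' p α) α := by
    unfold Dz Dz'
    have h1 := (((hasDerivAt_pow 6 α).sub ((hasDerivAt_pow 4 α).const_mul 4)).add
      ((hasDerivAt_id α).const_mul (p : ℂ))).add_const (q : ℂ)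
    refine h1.congr_deriv ?_
    simp
    ring
  have hline : HasDerivAt (fun s : ℝ => Dz p q (α + s)) (Dz' p α) 0 := by
    have h2 : HasDerivAt (fun s : ℝ => α + (s : ℂ)) 1 0 := by
      have := (Complex.ofRealCLM.hasDerivAt (x := (0 : ℝ))).const_add α
      simpa using this
    have h3 : HasDerivAt (fun z : ℂ => Dz p q z) (Dz' p α) ((fun s : ℝ => α + (s : ℂ)) 0) := by
      simpa using hder
    have := h3.scomp (0 : ℝ) h2
    rw [one_smul] at this
    exact this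
  have hslope := hline.tendsto_slope_zero_right
  have hlim0 : Tendsto (fun s : ℝ => s⁻¹ • (Dz p q (α + ((0 + s : ℝ) : ℂ)) - Dz p q (α + ((0 : ℝ) : ℂ))))
      (𝓝[>] 0) (𝓝 0) := by
    rw [tendsto_zero_iff_norm_tendsto_zero]
    have hb : Tendsto (fun s : ℝ => L ^ 2 * s) (𝓝[>] 0) (𝓝 0) := by
      have : Tendsto (fun s : ℝ => L ^ 2 * s) (𝓝 0) (𝓝 (L ^ 2 * 0)) :=
        (continuous_const.mul continuous_id).tendsto 0
      rw [mul_zero] at this
      exact this.mono_left nhdsWithin_le_nhds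
    refine squeeze_zero' (Eventually.of_forall fun _ => norm_nonneg _) ?_ hb
    have hev : ∀ᶠ s : ℝ in 𝓝[>] 0, s < 1 :=
      (tendsto_nhdsWithin_of_tendsto_nhds tendsto_id).eventually_lt_const one_pos
    filter_upwards [self_mem_nhdsWithin, hev] with s hs hs1
    have hs0 : 0 < s := hs
    have e1 : Dz p q (α + ((0 + s : ℝ) : ℂ)) = W (α + s) ^ 2 := by
      rw [zero_add, hW (α + s) (by simpa using hα)]
    have e2 : Dz p q (α + ((0 : ℝ) : ℂ)) = 0 := by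
      rw [Complex.ofReal_zero, add_zero, h0]
    rw [e1, e2, sub_zero, norm_smul, norm_inv, Real.norm_eq_abs, abs_of_pos hs0, norm_pow]
    have h3 := hL s hs0 hs1.le
    rw [hWα, sub_zero] at h3
    calc s⁻¹ * ‖W (α + s)‖ ^ 2 ≤ s⁻¹ * (L * s) ^ 2 := by gcongr
      _ = L ^ 2 * s := by field_simp
  exact tendsto_nhds_unique hslope hlim0

end H203R3.MM
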