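import Pool.Agent.H203R3.MM.PB

open scoped BigOperators Matrix Matrix.Norms.L2Operator
open MeasureTheory

set_option linter.unusedSectionVars false

namespace H203R3.MM

variable {n : ℕ}

/-- basis vector of the coordinate space -/
noncomputable def ev (a : Fin n × Fin n) : Co n := Pi.single a 1

theorem herm_path (T : Co n) (a : Fin n × Fin n) (s : ℝ) :
    herm (T + s • ev a) = herm T + s • B a := by
  rw [herm_add, herm_smul]; rfl

theorem hasDerivAt_herm (T : Co n) (a : Fin n × Fin n) :
    HasDerivAt (fun s : ℝ => herm (T + s • ev a)) (B a) 0 := by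
  simp only [herm_path]
  have h := ((hasDerivAt_id (0 : ℝ)).smul_const (B a)).const_add (herm T)
  simpa using h

/-- the trace as a real continuous linear map -/
noncomputable def trL (n : ℕ) : Mat n →L[ℝ] ℂ :=
  LinearMap.toContinuousLinearMap ((Matrix.traceLinearMap (Fin n) ℂ ℂ).restrictScalars ℝ)

theorem trL_apply (M : Mat n) : trL n M = M.trace := rfl

theorem hmtrace {f : ℝ → Mat n} {f' : Mat n} {t : ℝ} (h : HasDerivAt f f' t) :
    HasDerivAt (fun s => (f s).trace) f'.trace t :=
  (trL n).hasFDerivAt.comp_hasDerivAt t h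

/-- the derivative of a power -/
noncomputable def powD (A M : Mat n) (k : ℕ) : Mat n :=
  ∑ j ∈ Finset.range k, A ^ j * M * A ^ (k - 1 - j)

theorem powD_succ (A M : Mat n) (k : ℕ) : powD A M (k + 1) = powD A M k * A + A ^ k * M := by
  unfold powD
  rw [Finset.sum_range_succ, Finset.sum_mul]
  congr 1
  · refine Finset.sum_congr rfl fun j hj => ?_
    rw [Finset.mem_range] at hj
    rw [mul_assoc (A ^ j * M), ← pow_succ]
    congr 2; omega
  · simp

theorem hasDerivAt_pow (T : Co n) (a : Fin n × Fin n) (k : ℕ) :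
    HasDerivAt (fun s : ℝ => herm (T + s • ev a) ^ k) (powD (herm T) (B a) k) 0 := by
  induction k with
  | zero => simpa [powD] using hasDerivAt_const (0 : ℝ) (1 : Mat n)
  | succ k ih =>
    have h := ih.mul (hasDerivAt_herm T a)
    simp only [zero_smul, add_zero] at h
    rw [powD_succ]
    simpa only [pow_succ, Pi.mul_def] using h

theorem trace_powD (A M : Mat n) (k : ℕ) : (powD A M k).trace = k * (M * A ^ (k - 1)).trace := by
  unfold powD
  rw [Matrix.trace_sum]
  have : ∀ j ∈ Finset.range k, (A ^ j * M * A ^ (k - 1 - j)).trace = (M * A ^ (k - 1)).trace := by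
    intro j hj
    rw [Finset.mem_range] at hj
    rw [mul_assoc, Matrix.trace_mul_comm, mul_assoc, ← pow_add]
    congr 3; omega
  rw [Finset.sum_congr rfl this]
  simp

/-- `P'(A) = A^3 - 2 A` -/
noncomputable def Pd (T : Co n) : Mat n := herm T ^ 3 - (2 : ℂ) • herm T

theorem Pd_star (T : Co n) : star (Pd T) = Pd T := by
  rw [Pd, star_sub, star_pow, star_smul, herm_star]; simp

theorem PBM.Pd : PBM (Pd : Co n → Mat n) := by
  have h := (PBM.herm (n := n)).pow 3
  have h2 := PBM.smul (PB.const (n := n) (-2)) (PBM.herm (n := n))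
  have h3 := h.add h2
  intro i j
  have := h3 i j
  refine (iff_of_eq (congrArg PB ?_)).mp this
  funext T
  simp only [H203R3.MM.Pd, Matrix.add_apply, Matrix.sub_apply, Matrix.smul_apply, smul_eq_mul]
  ring

theorem trace_real {M N : Mat n} (hM : star M = M) (hN : star N = N) :
    (((M * N).trace.re : ℝ) : ℂ) = (M * N).trace := by
  apply Complex.conj_eq_iff_re.mp
  have h1 : (star (M * N)).trace = star ((M * N).trace) := Matrix.trace_conjTranspose _
  rw [star_mul, hM, hN, Matrix.trace_mul_comm] at h1
  exact h1.symm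

theorem hasDerivAt_Vp (T : Co n) (a : Fin n × Fin n) :
    HasDerivAt (fun s : ℝ => Vp (T + s • ev a)) ((B a * Pd T).trace.re) 0 := by
  have h4 := (hasDerivAt_pow T a 4).const_smul (1 / 4 : ℂ)
  have h2 := hasDerivAt_pow T a 2
  have h := hmtrace (h4.sub h2)
  have h5 := Complex.reCLM.hasFDerivAt.comp_hasDerivAt (0 : ℝ) h
  have e : Complex.reCLM (((1 / 4 : ℂ) • powD (herm T) (B a) 4 - powD (herm T) (B a) 2).trace) =
      (B a * Pd T).trace.re := by
    rw [Complex.reCLM_apply, Matrix.trace_sub, Matrix.trace_smul, trace_powD, trace_powD]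
    congr 1
    rw [Pd, mul_sub, Matrix.trace_sub, mul_smul_comm, Matrix.trace_smul]
    simp
  rw [e] at h5
  exact h5

theorem hasDerivAt_w (T : Co n) (a : Fin n × Fin n) :
    HasDerivAt (fun s : ℝ => (w (T + s • ev a) : ℂ)) (-(n : ℂ) * (B a * Pd T).trace * w T) 0 := by
  have h1 := ((hasDerivAt_Vp T a).const_mul (-(n : ℝ))).exp
  simp only [zero_smul, add_zero] at h1
  have h2 := h1.ofReal_comp
  have e : ((Real.exp (-(n : ℝ) * Vp T) * (-(n : ℝ) * (B a * Pd T).trace.re) : ℝ) : ℂ) =
      -(n : ℂ) * (B a * Pd T).trace * w T := by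
    push_cast
    rw [trace_real (B_star a) (Pd_star T), w]
    push_cast
    ring
  rw [e] at h2
  exact h2

/-- integration by parts -/
theorem ibp {f f' : Co n → ℂ} (v : Co n) (hf : ∀ T, HasDerivAt (fun s : ℝ => f (T + s • v)) (f' T) 0)
    (hi : Integrable f) (hi' : Integrable f') : ∫ T, f' T = 0 := by
  have h := integral_bilinear_hasLineDerivAt_right_eq_neg_left_of_integrable
    (μ := (volume : Measure (Co n))) (f := fun _ : Co n => (1 : ℂ)) (f' := fun _ => 0)
    (g := f) (g' := f') (v := v) (B := ContinuousLinearMap.mul ℝ ℂ)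
    (by simp) (by simpa using hi') (by simpa using hi)
    (fun T _ => by
      unfold HasLineDerivAt
      exact hasDerivAt_const _ _)
    (fun T _ => hf T)
  simpa using h

/-- The Schwinger-Dyson identity for a vector field `V` and a test function `F`. -/
theorem SD (hn : 0 < n) {V : Co n → Mat n} {V' : Co n → Fin n × Fin n → Mat n} {F : Co n → ℂ}
    {Y : Co n → Mat n}
    (hV : ∀ T a, HasDerivAt (fun s : ℝ => V (T + s • ev a)) (V' T a) 0)
    (hF : ∀ T a, HasDerivAt (fun s : ℝ => F (T + s • ev a)) ((B a * Y T).trace) 0)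
    (pV : PBM V) (pV' : ∀ a, PBM (fun T => V' T a)) (pF : PB F) (pY : PBM Y) :
    ∫ T, ((∑ a, (B a * V' T a).trace) * F T + (V T * Y T).trace
      - n * (V T * Pd T).trace * F T) * (w T : ℂ) = 0 := by
  -- the derivative of one component
  have key : ∀ a : Fin n × Fin n, ∫ T, ((B a * V' T a).trace * F T +
      (B a * V T).trace * (B a * Y T).trace
      - n * ((B a * V T).trace * (B a * Pd T).trace) * F T) * (w T : ℂ) = 0 := by
    intro a
    have pB : PBM (fun _ : Co n => B a) := PBM.const _
    have p1 : PB (fun T => (B a * V T).trace) := (pB.mul pV).trace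
    have p2 : PB (fun T => (B a * V' T a).trace) := (pB.mul (pV' a)).trace
    have p3 : PB (fun T => (B a * Y T).trace) := (pB.mul pY).trace
    have p4 : PB (fun T => (B a * Pd T).trace) := (pB.mul PBM.Pd).trace
    refine ibp (f := fun T => ((B a * V T).trace * F T) * (w T : ℂ)) (ev a) ?_ ?_ ?_
    · intro T
      have d1 : HasDerivAt (fun s : ℝ => (B a * V (T + s • ev a)).trace) (B a * V' T a).trace 0 :=
        hmtrace ((hV T a).const_mul (B a))
      have d2 := (d1.mul (hF T a)).mul (hasDerivAt_w T a)
      simp only [zero_smul, add_zero, Pi.mul_def] at d2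
      refine d2.congr_deriv ?_
      ring
    · exact (p1.mul pF).integrable hn
    · refine PB.integrable hn ?_
      exact ((p2.mul pF).add (p1.mul p3)).sub (((PB.const (n : ℂ)).mul (p1.mul p4)).mul pF)
  have hint : ∀ a : Fin n × Fin n, Integrable (fun T => ((B a * V' T a).trace * F T +
      (B a * V T).trace * (B a * Y T).trace
      - n * ((B a * V T).trace * (B a * Pd T).trace) * F T) * (w T : ℂ)) := by
    intro a
    have pB : PBM (fun _ : Co n => B a) := PBM.const _
    have p1 : PB (fun T => (B a * V T).trace) := (pB.mul pV).trace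
    have p2 : PB (fun T => (B a * V' T a).trace) := (pB.mul (pV' a)).trace
    have p3 : PB (fun T => (B a * Y T).trace) := (pB.mul pY).trace
    have p4 : PB (fun T => (B a * Pd T).trace) := (pB.mul PBM.Pd).trace
    exact PB.integrable hn
      (((p2.mul pF).add (p1.mul p3)).sub (((PB.const (n : ℂ)).mul (p1.mul p4)).mul pF))
  have hsum : ∫ T, ∑ a, ((B a * V' T a).trace * F T +
      (B a * V T).trace * (B a * Y T).trace
      - n * ((B a * V T).trace * (B a * Pd T).trace) * F T) * (w T : ℂ) = 0 := by
    rw [integral_finsetSum _ fun a _ => hint a]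
    exact Finset.sum_eq_zero fun a _ => key a
  rw [← hsum]
  congr 1
  funext T
  rw [← Finset.sum_mul, Finset.sum_sub_distrib, Finset.sum_add_distrib, ← Finset.sum_mul,
    sum_tr_tr, ← Finset.sum_mul, ← Finset.mul_sum, sum_tr_tr]

end H203R3.MM
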