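import Pool.Agent.H203R3.MM.Resolv

open scoped BigOperators Matrix Matrix.Norms.L2Operator Topology
open MeasureTheory Filter

set_option linter.unusedSectionVars false

namespace H203R3.MM

variable {n : ℕ}

theorem herm_isHermitian (T : Co n) : (herm T).IsHermitian := herm_star T

/-- eigenvalues -/
noncomputable def lam (T : Co n) : Fin n → ℝ := (herm_isHermitian T).eigenvalues

theorem trace_pow_eq (T : Co n) (k : ℕ) : (herm T ^ k).trace = ∑ i, ((lam T i : ℂ)) ^ k := by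
  have h := (herm_isHermitian T).spectral_theorem
  have h2 : herm T ^ k = Unitary.conjStarAlgAut ℂ _ (herm_isHermitian T).eigenvectorUnitary
      ((Matrix.diagonal (RCLike.ofReal ∘ (herm_isHermitian T).eigenvalues)) ^ k) := by
    rw [map_pow, ← h]
  rw [h2, Unitary.conjStarAlgAut_apply, Matrix.trace_mul_comm, ← mul_assoc,
    Unitary.coe_star_mul_self, one_mul, Matrix.diagonal_pow, Matrix.trace_diagonal]
  rfl

/-- real moments -/
noncomputable def t (k : ℕ) (T : Co n) : ℝ := (1 / n : ℝ) * ∑ i, (lam T i) ^ k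

/-- absolute moments -/
noncomputable def M (k : ℕ) (T : Co n) : ℝ := (1 / n : ℝ) * ∑ i, |lam T i| ^ k

theorem tau_eq (k : ℕ) (T : Co n) : tau k T = ((t k T : ℝ) : ℂ) := by
  unfold tau t
  rw [trace_pow_eq]
  push_cast
  rfl

theorem M_nonneg (k : ℕ) (T : Co n) : 0 ≤ M k T := by unfold M; positivity

theorem t_abs (k : ℕ) (T : Co n) : |t k T| ≤ M k T := by
  unfold t M
  rw [abs_mul, abs_of_nonneg (by positivity : (0 : ℝ) ≤ 1 / n)]
  refine mul_le_mul_of_nonneg_left ?_ (by positivity)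
  refine (Finset.abs_sum_le_sum_abs _ _).trans (le_of_eq ?_)
  exact Finset.sum_congr rfl fun i _ => abs_pow _ _

theorem M_even (k : ℕ) (T : Co n) : M (2 * k) T = t (2 * k) T := by
  unfold t M
  congr 1
  refine Finset.sum_congr rfl fun i _ => ?_
  rw [pow_mul, sq_abs, ← pow_mul]

theorem t_zero (hn : 0 < n) (T : Co n) : t 0 T = 1 := by
  unfold t
  have : (n : ℝ) ≠ 0 := by exact_mod_cast hn.ne'
  simp [this]

theorem M_zero (hn : 0 < n) (T : Co n) : M 0 T = 1 := by
  unfold M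
  have : (n : ℝ) ≠ 0 := by exact_mod_cast hn.ne'
  simp [this]

theorem M_mul (hn : 0 < n) (j k : ℕ) (T : Co n) : M j T * M k T ≤ M (j + k) T := by
  have hn' : (0 : ℝ) < n := by exact_mod_cast hn
  unfold M
  have hmono : Monovary (fun i => |lam T i| ^ j) (fun i => |lam T i| ^ k) := by
    intro a b hab
    have h1 : |lam T a| < |lam T b| := by
      by_contra hcon
      rw [not_lt] at hcon
      exact absurd hab (not_lt.mpr (pow_le_pow_left₀ (abs_nonneg _) hcon k))
    exact pow_le_pow_left₀ (abs_nonneg _) h1.le j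
  have h := hmono.sum_mul_sum_le_card_mul_sum
  rw [Fintype.card_fin] at h
  have h2 : ∑ i, |lam T i| ^ j * |lam T i| ^ k = ∑ i, |lam T i| ^ (j + k) :=
    Finset.sum_congr rfl fun i _ => (pow_add _ _ _).symm
  rw [h2] at h
  calc ((1 / n : ℝ) * ∑ i, |lam T i| ^ j) * ((1 / n : ℝ) * ∑ i, |lam T i| ^ k)
      = (1 / n : ℝ) ^ 2 * ((∑ i, |lam T i| ^ j) * ∑ i, |lam T i| ^ k) := by ring
    _ ≤ (1 / n : ℝ) ^ 2 * (n * ∑ i, |lam T i| ^ (j + k)) := by gcongr
    _ = 1 / n * ∑ i, |lam T i| ^ (j + k) := by field_simp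

theorem pow_le_one_add {x : ℝ} (hx : 0 ≤ x) {j k : ℕ} (h : j ≤ k) : x ^ j ≤ 1 + x ^ k := by
  rcases le_total x 1 with h1 | h1
  · have := pow_le_one₀ hx h1 (n := j)
    have := pow_nonneg hx k
    linarith
  · have := pow_le_pow_right₀ h1 h
    linarith

theorem M_le (hn : 0 < n) {j k : ℕ} (h : j ≤ k) (T : Co n) : M j T ≤ 1 + M k T := by
  have hn' : (0 : ℝ) < n := by exact_mod_cast hn
  unfold M
  have h1 : ∑ i : Fin n, |lam T i| ^ j ≤ ∑ i : Fin n, (1 + |lam T i| ^ k) :=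
    Finset.sum_le_sum fun i _ => pow_le_one_add (abs_nonneg _) h
  rw [Finset.sum_add_distrib] at h1
  simp only [Finset.sum_const, Finset.card_univ, Fintype.card_fin, nsmul_eq_mul, mul_one] at h1
  calc (1 / n : ℝ) * ∑ i, |lam T i| ^ j ≤ (1 / n : ℝ) * (n + ∑ i, |lam T i| ^ k) := by gcongr
    _ = _ := by field_simp

/-- real valued functions of polynomial growth -/
def PBR (f : Co n → ℝ) : Prop := PB (fun T => (f T : ℂ))

theorem PBR.const (c : ℝ) : PBR (fun _ : Co n => c) := PB.const _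

theorem PBR.add {f g : Co n → ℝ} (hf : PBR f) (hg : PBR g) : PBR (fun T => f T + g T) := by
  have := PB.add hf hg
  unfold PBR; push_cast; exact this

theorem PBR.mul {f g : Co n → ℝ} (hf : PBR f) (hg : PBR g) : PBR (fun T => f T * g T) := by
  have := PB.mul hf hg
  unfold PBR; push_cast; exact this

theorem PBR.sub {f g : Co n → ℝ} (hf : PBR f) (hg : PBR g) : PBR (fun T => f T - g T) := by
  have := PB.sub hf hg
  unfold PBR; push_cast; exact this

theorem PBR.pow {f : Co n → ℝ} (hf : PBR f) (k : ℕ) : PBR (fun T => f T ^ k) := by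
  have := PB.pow hf k
  unfold PBR; push_cast; exact this

theorem PBR.sum {ι : Type*} (s : Finset ι) {f : ι → Co n → ℝ} (hf : ∀ i ∈ s, PBR (f i)) :
    PBR (fun T => ∑ i ∈ s, f i T) := by
  have := PB.sum s hf
  unfold PBR; push_cast; exact this

theorem PBR.t (k : ℕ) : PBR (t k : Co n → ℝ) := by
  have := PB.tau (n := n) k
  refine (iff_of_eq (congrArg PB ?_)).mp this
  funext T; exact tau_eq k T

theorem PBR.normsq {f : Co n → ℂ} (hf : PB f) : PBR (fun T => ‖f T‖ ^ 2) := by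
  have := hf.mul hf.star
  refine (iff_of_eq (congrArg PB ?_)).mp this
  funext T
  rw [Complex.mul_conj, Complex.normSq_eq_norm_sq]

theorem PBR.integrable {f : Co n → ℝ} (hn : 0 < n) (hf : PBR f) :
    Integrable (fun T => f T * w T) := by
  have h := (PB.integrable hn hf).re
  refine h.congr (Eventually.of_forall fun T => ?_)
  simp [← Complex.ofReal_mul]

/-- partition function -/
noncomputable def Zn (n : ℕ) : ℝ := ∫ T : Co n, w T

theorem w_integrable (hn : 0 < n) : Integrable (fun T : Co n => w T) := by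
  have := PBR.integrable hn (PBR.const (n := n) 1)
  simpa using this

theorem Zn_pos (hn : 0 < n) : 0 < Zn n := by
  unfold Zn
  rw [integral_pos_iff_support_of_nonneg (fun T => (w_pos T).le) (w_integrable hn)]
  have : Function.support (fun T : Co n => w T) = Set.univ := by
    ext T; simp [(w_pos T).ne']
  rw [this]
  exact isOpen_univ.measure_pos volume Set.univ_nonempty

/-- expectation in the matrix model -/
noncomputable def Ex (f : Co n → ℝ) : ℝ := (∫ T, f T * w T) / Zn n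

theorem Ex_add (hn : 0 < n) {f g : Co n → ℝ} (hf : PBR f) (hg : PBR g) :
    Ex (fun T => f T + g T) = Ex f + Ex g := by
  unfold Ex
  rw [← add_div, ← integral_add (hf.integrable hn) (hg.integrable hn)]
  simp only [add_mul]

theorem Ex_sub (hn : 0 < n) {f g : Co n → ℝ} (hf : PBR f) (hg : PBR g) :
    Ex (fun T => f T - g T) = Ex f - Ex g := by
  unfold Ex
  rw [← sub_div, ← integral_sub (hf.integrable hn) (hg.integrable hn)]
  simp only [sub_mul]

theorem Ex_const_mul (c : ℝ) (f : Co n → ℝ) : Ex (fun T => c * f T) = c * Ex f := by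
  unfold Ex
  simp only [mul_assoc]
  rw [integral_const_mul, mul_div_assoc]

theorem Ex_const (hn : 0 < n) (c : ℝ) : Ex (fun _ : Co n => c) = c := by
  unfold Ex
  rw [integral_const_mul]
  have := (Zn_pos hn).ne'
  unfold Zn at this ⊢
  field_simp

theorem Ex_mono (hn : 0 < n) {f g : Co n → ℝ} (hf : PBR f) (hg : PBR g) (h : ∀ T, f T ≤ g T) :
    Ex f ≤ Ex g := by
  unfold Ex
  refine div_le_div_of_nonneg_right ?_ (Zn_pos hn).le
  exact integral_mono (hf.integrable hn) (hg.integrable hn)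
    fun T => mul_le_mul_of_nonneg_right (h T) (w_pos T).le

theorem Ex_nonneg (hn : 0 < n) {f : Co n → ℝ} (h : ∀ T, 0 ≤ f T) : 0 ≤ Ex f := by
  unfold Ex
  exact div_nonneg (integral_nonneg fun T => mul_nonneg (h T) (w_pos T).le) (Zn_pos hn).le

theorem Ex_sum (hn : 0 < n) {ι : Type*} (s : Finset ι) {f : ι → Co n → ℝ}
    (hf : ∀ i ∈ s, PBR (f i)) : Ex (fun T => ∑ i ∈ s, f i T) = ∑ i ∈ s, Ex (f i) := by
  classical
  induction s using Finset.induction_on with
  | empty => simp [Ex]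
  | insert a s ha ih =>
    simp only [Finset.sum_insert ha]
    rw [Ex_add hn (hf a (Finset.mem_insert_self a s))
      (PBR.sum s fun i hi => hf i (Finset.mem_insert_of_mem hi)),
      ih fun i hi => hf i (Finset.mem_insert_of_mem hi)]

/-- loop equation defect for moments -/
noncomputable def Lk (k : ℕ) (T : Co n) : ℝ :=
  ∑ j ∈ Finset.range k, t j T * t (k - 1 - j) T - (t (k + 3) T - 2 * t (k + 1) T)

theorem PBR.Lk (k : ℕ) : PBR (Lk k : Co n → ℝ) :=
  (PBR.sum _ fun j _ => (PBR.t j).mul (PBR.t _)).sub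
    ((PBR.t _).sub ((PBR.const _).mul (PBR.t _)))

/-- gradient of `tau` -/
noncomputable def gt (j : ℕ) (T : Co n) : Mat n := ((j : ℂ) / n) • herm T ^ (j - 1)

theorem hasDerivAt_tau' (T : Co n) (a : Fin n × Fin n) (k : ℕ) :
    HasDerivAt (fun s : ℝ => tau k (T + s • ev a)) ((B a * gt k T).trace) 0 := by
  refine (hasDerivAt_tau T a k).congr_deriv ?_
  unfold gt
  rw [mul_smul_comm, Matrix.trace_smul, smul_eq_mul]
  ring

/-- gradient of `Lk` -/
noncomputable def gL (k : ℕ) (T : Co n) : Mat n :=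
  ∑ j ∈ Finset.range k, (tau (k - 1 - j) T • gt j T + tau j T • gt (k - 1 - j) T)
    - (gt (k + 3) T - (2 : ℂ) • gt (k + 1) T)

theorem Lk_eq (k : ℕ) (T : Co n) : ((Lk k T : ℝ) : ℂ) =
    ∑ j ∈ Finset.range k, tau j T * tau (k - 1 - j) T - (tau (k + 3) T - 2 * tau (k + 1) T) := by
  unfold Lk
  push_cast
  simp only [tau_eq]

theorem hasDerivAt_Lk (T : Co n) (a : Fin n × Fin n) (k : ℕ) :
    HasDerivAt (fun s : ℝ => ((Lk k (T + s • ev a) : ℝ) : ℂ)) ((B a * gL k T).trace) 0 := by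
  simp only [Lk_eq]
  have h1 : HasDerivAt (fun s : ℝ => ∑ j ∈ Finset.range k,
      tau j (T + s • ev a) * tau (k - 1 - j) (T + s • ev a))
      (∑ j ∈ Finset.range k, ((B a * gt j T).trace * tau (k - 1 - j) T +
        tau j T * (B a * gt (k - 1 - j) T).trace)) 0 := by
    refine HasDerivAt.fun_sum fun j _ => ?_
    have := (hasDerivAt_tau' T a j).mul (hasDerivAt_tau' T a (k - 1 - j))
    simp only [zero_smul, add_zero] at this
    exact this
  have h2 := (h1.sub ((hasDerivAt_tau' T a (k + 3)).sub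
    ((hasDerivAt_tau' T a (k + 1)).const_mul 2)))
  refine h2.congr_deriv ?_
  unfold gL
  rw [mul_sub, mul_sub, Matrix.trace_sub, Matrix.trace_sub, Matrix.mul_sum, Matrix.trace_sum,
    mul_smul_comm, Matrix.trace_smul, smul_eq_mul]
  congr 1
  refine Finset.sum_congr rfl fun j _ => ?_
  rw [mul_add, Matrix.trace_add, mul_smul_comm, mul_smul_comm, Matrix.trace_smul,
    Matrix.trace_smul, smul_eq_mul, smul_eq_mul]
  ring

theorem PBM.gt (j : ℕ) : PBM (gt j : Co n → Mat n) := PBM.smul (PB.const _) (PBM.herm.pow _)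

theorem PBM.gL (k : ℕ) : PBM (gL k : Co n → Mat n) := by
  have h1 : PBM (fun T : Co n => ∑ j ∈ Finset.range k,
      (H203R3.MM.tau (k - 1 - j) T • H203R3.MM.gt j T + H203R3.MM.tau j T • H203R3.MM.gt (k - 1 - j) T)) :=
    PBM.sum _ fun j _ => (PBM.smul (PB.tau _) (PBM.gt _)).add (PBM.smul (PB.tau _) (PBM.gt _))
  have h2 : PBM (fun T : Co n => (-1 : ℂ) • (H203R3.MM.gt (k + 3) T +
      (-2 : ℂ) • H203R3.MM.gt (k + 1) T)) :=
    PBM.smul (PB.const _) ((PBM.gt _).add (PBM.smul (PB.const _) (PBM.gt _)))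
  have h3 := h1.add h2
  intro i j
  refine (iff_of_eq (congrArg PB ?_)).mp (h3 i j)
  funext T
  unfold H203R3.MM.gL
  simp only [Matrix.add_apply, Matrix.sub_apply, Matrix.smul_apply, smul_eq_mul]
  ring

theorem trace_gt (hn : 0 < n) (k j : ℕ) (T : Co n) :
    (herm T ^ k * gt j T).trace = j * tau (k + (j - 1)) T := by
  have hnc : (n : ℂ) ≠ 0 := by exact_mod_cast hn.ne'
  unfold gt tau
  rw [mul_smul_comm, Matrix.trace_smul, ← pow_add, smul_eq_mul]
  field_simp

/-- polynomial Schwinger-Dyson identity -/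
theorem SD_poly (hn : 0 < n) (k : ℕ) {F : Co n → ℂ} {Y : Co n → Mat n}
    (hF : ∀ T a, HasDerivAt (fun s : ℝ => F (T + s • ev a)) ((B a * Y T).trace) 0)
    (pF : PB F) (pY : PBM Y) :
    ∫ T, ((n : ℂ) ^ 2 * (((Lk k T : ℝ) : ℂ) * F T) + (herm T ^ k * Y T).trace) * (w T : ℂ) = 0 := by
  have hnc : (n : ℂ) ≠ 0 := by exact_mod_cast hn.ne'
  have pA := PBM.herm (n := n)
  have hSD := SD hn (V := fun T => herm T ^ k) (V' := fun T a => powD (herm T) (B a) k)
    (F := F) (Y := Y) (fun T a => hasDerivAt_pow T a k) hF (pA.pow k)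
    (fun a => by
      unfold powD
      exact PBM.sum _ fun j _ => ((pA.pow _).mul (PBM.const _)).mul (pA.pow _)) pF pY
  rw [← hSD]
  congr 1
  funext T
  congr 1
  have a1 : ∑ a, (B a * powD (herm T) (B a) k).trace =
      ∑ j ∈ Finset.range k, (herm T ^ j).trace * (herm T ^ (k - 1 - j)).trace := by
    unfold powD
    simp only [Matrix.mul_sum, Matrix.trace_sum]
    rw [Finset.sum_comm]
    refine Finset.sum_congr rfl fun j _ => ?_
    rw [← sum_tr_mul]
    refine Finset.sum_congr rfl fun a _ => ?_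
    simp only [mul_assoc]
  have a4 : ∀ k, (herm T ^ k).trace = n * tau k T := by intro k; unfold tau; field_simp
  have a5 : (herm T ^ k * Pd T).trace = n * (tau (k + 3) T - 2 * tau (k + 1) T) := by
    unfold Pd
    rw [mul_sub, Matrix.trace_sub, mul_smul_comm, Matrix.trace_smul, ← pow_add, ← pow_succ, a4, a4,
      smul_eq_mul]
    ring
  rw [a1, a5, Lk_eq]
  simp only [a4]
  have a6 : ∑ j ∈ Finset.range k, (n : ℂ) * tau j T * (n * tau (k - 1 - j) T) =
      (n : ℂ) ^ 2 * ∑ j ∈ Finset.range k, tau j T * tau (k - 1 - j) T := by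
    rw [Finset.mul_sum]
    exact Finset.sum_congr rfl fun j _ => by ring
  rw [a6]
  ring

theorem Ex_Lk (hn : 0 < n) (k : ℕ) : Ex (Lk k : Co n → ℝ) = 0 := by
  have h := SD_poly hn k (F := fun _ => 1) (Y := fun _ => 0)
    (fun T a => by simpa using hasDerivAt_const (0 : ℝ) (1 : ℂ)) (PB.const 1) (PBM.const 0)
  simp only [mul_one, mul_zero, Matrix.trace_zero, add_zero] at h
  have hnc : (n : ℂ) ^ 2 ≠ 0 := pow_ne_zero _ (by exact_mod_cast hn.ne')
  simp only [mul_assoc] at h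
  rw [integral_const_mul] at h
  have h2 := (mul_eq_zero.mp h).resolve_left hnc
  have h3 : ∫ T : Co n, ((Lk k T : ℝ) : ℂ) * (w T : ℂ) = ((∫ T : Co n, Lk k T * w T : ℝ) : ℂ) := by
    rw [← integral_complex_ofReal]
    congr 1; funext T; push_cast; rfl
  rw [h3] at h2
  unfold Ex
  rw [Complex.ofReal_eq_zero.mp h2, zero_div]

/-- uniform moment bounds -/
theorem moment_bound (r : ℕ) : ∃ C : ℝ, 0 ≤ C ∧ ∀ n : ℕ, 0 < n → Ex (t (2 * r) : Co n → ℝ) ≤ C := by
  have main : ∀ r : ℕ, (∃ C : ℝ, 0 ≤ C ∧ ∀ n : ℕ, 0 < n → Ex (t (2 * r) : Co n → ℝ) ≤ C) ∧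
      (∃ C : ℝ, 0 ≤ C ∧ ∀ n : ℕ, 0 < n → Ex (t (2 * (r + 1)) : Co n → ℝ) ≤ C) := by
    intro r
    induction r with
    | zero =>
      refine ⟨⟨1, zero_le_one, fun n hn => ?_⟩, ⟨3, by norm_num, fun n hn => ?_⟩⟩
      · have : (t (2 * 0) : Co n → ℝ) = fun _ => 1 := by
          funext T; rw [mul_zero]; exact t_zero hn T
        rw [this, Ex_const hn]
      · have h1 := Ex_Lk hn 1
        have h2 : (Lk 1 : Co n → ℝ) = fun T => 1 - (t 4 T - 2 * t 2 T) := by
          funext T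
          unfold Lk
          simp [t_zero hn]
        rw [h2, Ex_sub hn (PBR.const 1) ((PBR.t 4).sub ((PBR.const 2).mul (PBR.t 2))), Ex_const hn,
          Ex_sub hn (PBR.t 4) ((PBR.const 2).mul (PBR.t 2)), Ex_const_mul] at h1
        have h3 : Ex (fun T : Co n => 6 * t 2 T - 9) ≤ Ex (t 4 : Co n → ℝ) := by
          refine Ex_mono hn (((PBR.const 6).mul (PBR.t 2)).sub (PBR.const 9)) (PBR.t 4) fun T => ?_
          have a1 := M_mul hn 2 2 T
          have a2 := M_even 1 T
          have a3 := M_even 2 T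
          norm_num at a1 a2 a3
          rw [a2, a3] at a1
          nlinarith [sq_nonneg (t 2 T - 3)]
        rw [Ex_sub hn ((PBR.const 6).mul (PBR.t 2)) (PBR.const 9), Ex_const_mul, Ex_const hn] at h3
        change Ex (t 2 : Co n → ℝ) ≤ 3
        linarith
    | succ r ih =>
      obtain ⟨⟨C1, hC1, h1⟩, ⟨C2, hC2, h2⟩⟩ := ih
      refine ⟨⟨C2, hC2, h2⟩, ⟨2 * C2 + (2 * r + 1) * C1, by positivity, fun n hn => ?_⟩⟩
      have h3 := Ex_Lk hn (2 * r + 1)
      have pS : PBR (fun T : Co n => ∑ j ∈ Finset.range (2 * r + 1), t j T * t (2 * r + 1 - 1 - j) T) :=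
        PBR.sum _ fun j _ => (PBR.t j).mul (PBR.t _)
      have pD : PBR (fun T : Co n => t (2 * r + 1 + 3) T - 2 * t (2 * r + 1 + 1) T) :=
        (PBR.t _).sub ((PBR.const 2).mul (PBR.t _))
      have h4 : Ex (Lk (2 * r + 1) : Co n → ℝ) =
          Ex (fun T : Co n => ∑ j ∈ Finset.range (2 * r + 1), t j T * t (2 * r + 1 - 1 - j) T) -
          (Ex (t (2 * r + 1 + 3) : Co n → ℝ) - 2 * Ex (t (2 * r + 1 + 1) : Co n → ℝ)) := by
        rw [← Ex_const_mul, ← Ex_sub hn (PBR.t _) ((PBR.const 2).mul (PBR.t _)),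
          ← Ex_sub hn pS pD]
        rfl
      rw [h3, Ex_sum hn _ (fun j _ => (PBR.t j).mul (PBR.t _))] at h4
      have h5 : ∀ j ∈ Finset.range (2 * r + 1),
          Ex (fun T : Co n => t j T * t (2 * r + 1 - 1 - j) T) ≤ C1 := by
        intro j hj
        rw [Finset.mem_range] at hj
        refine le_trans ?_ (h1 n hn)
        refine Ex_mono hn ((PBR.t j).mul (PBR.t _)) (PBR.t _) fun T => ?_
        have b1 := M_mul hn j (2 * r + 1 - 1 - j) T
        have b2 : j + (2 * r + 1 - 1 - j) = 2 * r := by omega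
        rw [b2, M_even] at b1
        refine le_trans ?_ b1
        refine (le_abs_self _).trans ?_
        rw [abs_mul]
        exact mul_le_mul (t_abs _ _) (t_abs _ _) (abs_nonneg _) (M_nonneg _ _)
      have h6 := Finset.sum_le_sum h5
      rw [Finset.sum_const, Finset.card_range, nsmul_eq_mul] at h6
      have e3 : ((2 * r + 1 : ℕ) : ℝ) = 2 * r + 1 := by push_cast; ring
      rw [e3] at h6
      have h7 := h2 n hn
      have e1 : 2 * (r + 1 + 1) = 2 * r + 1 + 3 := by ring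
      have e2 : 2 * (r + 1) = 2 * r + 1 + 1 := by ring
      rw [e2] at h7
      rw [e1]
      linarith
  exact (main r).1

/-- all absolute moments are bounded -/
theorem M_bound (N : ℕ) : ∃ C : ℝ, 0 ≤ C ∧ ∀ n : ℕ, 0 < n →
    ∀ f : Co n → ℝ, PBR f → (∀ T, f T ≤ M (2 * N) T) → Ex f ≤ C := by
  obtain ⟨C, hC, h⟩ := moment_bound N
  refine ⟨C, hC, fun n hn f hf hfM => ?_⟩
  refine (Ex_mono hn hf (PBR.t (2 * N)) fun T => ?_).trans (h n hn)
  rw [← M_even]; exact hfM T

/-- the loop equations hold in `L²` with error `O(1/n²)` -/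
theorem Lk_bound (k : ℕ) : ∃ C : ℝ, 0 ≤ C ∧ ∀ n : ℕ, 0 < n →
    (n : ℝ) ^ 2 * Ex (fun T : Co n => Lk k T ^ 2) ≤ C := by
  obtain ⟨C, hC, hMb⟩ := M_bound (k + 1)
  set c : ℝ := ∑ j ∈ Finset.range k, ((j : ℝ) + ((k - 1 - j : ℕ) : ℝ)) + ((k : ℝ) + 3) +
    2 * ((k : ℝ) + 1) with hc
  have hc0 : 0 ≤ c := by rw [hc]; positivity
  refine ⟨c * (1 + C), by positivity, fun n hn => ?_⟩
  have h := SD_poly hn k (F := fun T => ((Lk k T : ℝ) : ℂ)) (Y := gL k)
    (fun T a => hasDerivAt_Lk T a k) (PBR.Lk k) (PBM.gL k)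
  -- the trace term
  have htr : ∀ T : Co n, (herm T ^ k * gL k T).trace =
      ((∑ j ∈ Finset.range k, ((j : ℝ) * (t (k - 1 - j) T * t (k + (j - 1)) T) +
        ((k - 1 - j : ℕ) : ℝ) * (t j T * t (k + (k - 1 - j - 1)) T))
        - (((k : ℝ) + 3) * t (k + (k + 3 - 1)) T - 2 * (((k : ℝ) + 1) * t (k + (k + 1 - 1)) T)) : ℝ) : ℂ) := by
    intro T
    unfold gL
    rw [mul_sub, mul_sub, Matrix.trace_sub, Matrix.trace_sub, Matrix.mul_sum, Matrix.trace_sum,
      mul_smul_comm, Matrix.trace_smul, smul_eq_mul, trace_gt hn, trace_gt hn]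
    push_cast
    simp only [tau_eq]
    congr 1
    · refine Finset.sum_congr rfl fun j _ => ?_
      rw [mul_add, Matrix.trace_add, mul_smul_comm, mul_smul_comm, Matrix.trace_smul,
        Matrix.trace_smul, trace_gt hn, trace_gt hn, smul_eq_mul, smul_eq_mul]
      simp only [tau_eq]
      ring
  set g : Co n → ℝ := fun T => (∑ j ∈ Finset.range k, ((j : ℝ) * (t (k - 1 - j) T * t (k + (j - 1)) T) +
        ((k - 1 - j : ℕ) : ℝ) * (t j T * t (k + (k - 1 - j - 1)) T))
        - (((k : ℝ) + 3) * t (k + (k + 3 - 1)) T - 2 * (((k : ℝ) + 1) * t (k + (k + 1 - 1)) T))) with hg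
  have pg : PBR g :=
    (PBR.sum _ fun j _ => ((PBR.const _).mul ((PBR.t _).mul (PBR.t _))).add
      ((PBR.const _).mul ((PBR.t _).mul (PBR.t _)))).sub
      (((PBR.const _).mul (PBR.t _)).sub ((PBR.const _).mul ((PBR.const _).mul (PBR.t _))))
  have pL2 : PBR (fun T : Co n => Lk k T ^ 2) := (PBR.Lk k).pow 2
  have h1 : (n : ℝ) ^ 2 * Ex (fun T : Co n => Lk k T ^ 2) + Ex g = 0 := by
    have e1 : ∀ T : Co n, ((n : ℂ) ^ 2 * (((Lk k T : ℝ) : ℂ) * ((Lk k T : ℝ) : ℂ)) +
        (herm T ^ k * gL k T).trace) * (w T : ℂ) =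
        (((((n : ℝ) ^ 2 * Lk k T ^ 2 + g T) * w T : ℝ)) : ℂ) := by
      intro T
      rw [htr]
      simp only [hg]
      push_cast
      ring
    simp only [e1] at h
    rw [integral_complex_ofReal] at h
    have h2 := Complex.ofReal_eq_zero.mp h
    have h3 : Ex (fun T : Co n => (n : ℝ) ^ 2 * Lk k T ^ 2 + g T) = 0 := by
      unfold Ex; rw [h2, zero_div]
    rw [Ex_add hn ((PBR.const _).mul pL2) pg, Ex_const_mul] at h3
    exact h3
  -- bound of `-g`
  have hbd : ∀ T : Co n, -g T ≤ c * (1 + M (2 * (k + 1)) T) := by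
    intro T
    set m := 1 + M (2 * (k + 1)) T with hm
    have hm0 : 0 ≤ m := by rw [hm]; have := M_nonneg (2 * (k + 1)) T; linarith
    have hsingle : ∀ a, a ≤ 2 * (k + 1) → |t a T| ≤ m := fun a ha =>
      (t_abs a T).trans (M_le hn ha T)
    have hprod : ∀ a b, a + b ≤ 2 * (k + 1) → |t a T * t b T| ≤ m := by
      intro a b hab
      rw [abs_mul]
      calc |t a T| * |t b T| ≤ M a T * M b T :=
            mul_le_mul (t_abs _ _) (t_abs _ _) (abs_nonneg _) (M_nonneg _ _)
        _ ≤ M (a + b) T := M_mul hn a b T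
        _ ≤ m := M_le hn hab T
    have hj1 : ∀ j ∈ Finset.range k, |(j : ℝ) * (t (k - 1 - j) T * t (k + (j - 1)) T) +
        ((k - 1 - j : ℕ) : ℝ) * (t j T * t (k + (k - 1 - j - 1)) T)| ≤
        ((j : ℝ) + ((k - 1 - j : ℕ) : ℝ)) * m := by
      intro j hj
      rw [Finset.mem_range] at hj
      refine (abs_add_le _ _).trans ?_
      rw [abs_mul (j : ℝ), abs_mul ((k - 1 - j : ℕ) : ℝ), Nat.abs_cast, Nat.abs_cast, add_mul]
      refine add_le_add ?_ ?_
      · exact mul_le_mul_of_nonneg_left (hprod _ _ (by omega)) (Nat.cast_nonneg _)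
      · exact mul_le_mul_of_nonneg_left (hprod _ _ (by omega)) (Nat.cast_nonneg _)
    have hS : |∑ j ∈ Finset.range k, ((j : ℝ) * (t (k - 1 - j) T * t (k + (j - 1)) T) +
        ((k - 1 - j : ℕ) : ℝ) * (t j T * t (k + (k - 1 - j - 1)) T))| ≤
        (∑ j ∈ Finset.range k, ((j : ℝ) + ((k - 1 - j : ℕ) : ℝ))) * m := by
      rw [Finset.sum_mul]
      exact (Finset.abs_sum_le_sum_abs _ _).trans (Finset.sum_le_sum hj1)
    have h3 := hsingle (k + (k + 3 - 1)) (by omega)
    have h4 := hsingle (k + (k + 1 - 1)) (by omega)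
    have h5 := (abs_le.mp hS).1
    have h6 := (abs_le.mp h3).2
    have h7 := (abs_le.mp h4).1
    have hk : (0 : ℝ) ≤ k := Nat.cast_nonneg _
    have h8 : ((k : ℝ) + 3) * t (k + (k + 3 - 1)) T ≤ ((k : ℝ) + 3) * m :=
      mul_le_mul_of_nonneg_left h6 (by linarith)
    have h9 : 2 * (((k : ℝ) + 1) * (-m)) ≤ 2 * (((k : ℝ) + 1) * t (k + (k + 1 - 1)) T) := by
      gcongr
    simp only [hg]
    rw [hc]
    linarith
  have h2 : (n : ℝ) ^ 2 * Ex (fun T : Co n => Lk k T ^ 2) = Ex (fun T : Co n => (-1) * g T) := by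
    rw [Ex_const_mul]; linarith
  rw [h2]
  have pM : PBR (fun T : Co n => M (2 * (k + 1)) T) := by
    have := PBR.t (n := n) (2 * (k + 1))
    refine (iff_of_eq (congrArg PBR ?_)).mp this
    funext T; exact (M_even _ _).symm
  calc Ex (fun T : Co n => (-1) * g T) ≤ Ex (fun T : Co n => c * (1 + M (2 * (k + 1)) T)) :=
        Ex_mono hn ((PBR.const _).mul pg) ((PBR.const _).mul ((PBR.const _).add pM))
          fun T => by have := hbd T; linarith
    _ = c * (1 + Ex (fun T : Co n => M (2 * (k + 1)) T)) := by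
      rw [Ex_const_mul, Ex_add hn (PBR.const _) pM, Ex_const hn]
    _ ≤ c * (1 + C) := by
      gcongr
      exact hMb n hn _ pM fun T => le_rfl

end H203R3.MM
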