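import Pool.Agent.H203R3.MM.Herm

open scoped BigOperators Matrix Matrix.Norms.L2Operator
open MeasureTheory

set_option linter.unusedSectionVars false

namespace H203R3.MM

variable {n : ℕ}

/-- squared euclidean norm of the coordinates -/
noncomputable def q (T : Co n) : ℝ := ∑ a, T a ^ 2

theorem q_nonneg (T : Co n) : 0 ≤ q T := Finset.sum_nonneg fun _ _ => sq_nonneg _

theorem q_cont : Continuous (q : Co n → ℝ) := by unfold q; fun_prop

/-- potential `P'(x) = x^3 - 2 x`, `P(x) = x^4/4 - x^2` -/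
noncomputable def Vp (T : Co n) : ℝ :=
  (((1 / 4 : ℂ) • herm T ^ 4 - herm T ^ 2).trace).re

/-- unnormalised density `exp(- n Tr P(A))` -/
noncomputable def w (T : Co n) : ℝ := Real.exp (-(n : ℝ) * Vp T)

theorem herm_cont : Continuous (herm : Co n → Mat n) := by
  refine continuous_matrix fun i j => ?_
  unfold herm
  by_cases h1 : i = j
  · simp only [h1, if_true]; fun_prop
  · simp only [h1, if_false]
    by_cases h2 : i < j
    · simp only [h2, if_true]; fun_prop
    · simp only [h2, if_false]; fun_prop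

theorem Vp_cont : Continuous (Vp : Co n → ℝ) := by
  unfold Vp
  have h := herm_cont (n := n)
  have h1 : Continuous fun T : Co n => ((1 / 4 : ℂ) • herm T ^ 4 - herm T ^ 2) :=
    ((h.pow 4).const_smul (1 / 4 : ℂ)).sub (h.pow 2)
  exact Complex.continuous_re.comp h1.matrix_trace

theorem w_cont : Continuous (w : Co n → ℝ) := by
  unfold w
  exact Real.continuous_exp.comp (continuous_const.mul Vp_cont)

theorem w_pos (T : Co n) : 0 < w T := Real.exp_pos _

theorem trace_sq_re (M : Mat n) (hM : star M = M) : ((M * M).trace).re = ∑ i, ∑ j, ‖M i j‖ ^ 2 := by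
  have h1 : (M * M).trace = ∑ i, ∑ j, M i j * M j i := by simp [Matrix.trace, Matrix.mul_apply]
  rw [h1, Complex.re_sum]
  refine Finset.sum_congr rfl fun i _ => ?_
  rw [Complex.re_sum]
  refine Finset.sum_congr rfl fun j _ => ?_
  have h2 : M j i = (starRingEnd ℂ) (M i j) := by
    have := congrFun (congrFun hM j) i
    rw [Matrix.star_apply] at this
    exact this.symm
  rw [h2, Complex.mul_conj, Complex.ofReal_re, Complex.normSq_eq_norm_sq]

theorem norm_pair (T : Co n) (i j : Fin n) :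
    ‖herm T i j‖ ^ 2 + ‖herm T j i‖ ^ 2 = T (i, j) ^ 2 + T (j, i) ^ 2 := by
  have key : ∀ a b : ℝ, ‖((a : ℂ) + Complex.I * (b : ℂ)) / ((Real.sqrt 2 : ℝ) : ℂ)‖ ^ 2 =
      (a ^ 2 + b ^ 2) / 2 := by
    intro a b
    rw [norm_div, div_pow, ← Complex.normSq_eq_norm_sq, Complex.norm_real, Real.norm_eq_abs,
      sq_abs, Real.sq_sqrt (by norm_num)]
    congr 1
    rw [Complex.normSq_apply]
    simp
    ring
  have key2 : ∀ a b : ℝ, ‖((a : ℂ) - Complex.I * (b : ℂ)) / ((Real.sqrt 2 : ℝ) : ℂ)‖ ^ 2 =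
      (a ^ 2 + b ^ 2) / 2 := by
    intro a b
    have := key a (-b)
    push_cast at this
    rw [mul_neg, ← sub_eq_add_neg] at this
    rw [this]; ring
  rcases lt_trichotomy i j with h | h | h
  · have e1 : herm T i j = ((T (i, j) : ℂ) + Complex.I * (T (j, i) : ℂ)) / ((Real.sqrt 2 : ℝ) : ℂ) := by
      simp only [herm, if_neg (ne_of_lt h), if_pos h]
    have e2 : herm T j i = ((T (i, j) : ℂ) - Complex.I * (T (j, i) : ℂ)) / ((Real.sqrt 2 : ℝ) : ℂ) := by
      simp only [herm, if_neg (ne_of_gt h), if_neg (not_lt.mpr h.le)]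
    rw [e1, e2, key, key2]; ring
  · subst h
    have e1 : herm T i i = (T (i, i) : ℂ) := by simp only [herm, if_true]
    rw [e1, Complex.norm_real, Real.norm_eq_abs, sq_abs]
  · have e1 : herm T j i = ((T (j, i) : ℂ) + Complex.I * (T (i, j) : ℂ)) / ((Real.sqrt 2 : ℝ) : ℂ) := by
      simp only [herm, if_neg (ne_of_lt h), if_pos h]
    have e2 : herm T i j = ((T (j, i) : ℂ) - Complex.I * (T (i, j) : ℂ)) / ((Real.sqrt 2 : ℝ) : ℂ) := by
      simp only [herm, if_neg (ne_of_gt h), if_neg (not_lt.mpr h.le)]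
    rw [e1, e2, key, key2]; ring

theorem sum_norm_sq (T : Co n) : ∑ i, ∑ j, ‖herm T i j‖ ^ 2 = q T := by
  have h1 : ∑ i, ∑ j, (‖herm T i j‖ ^ 2 + ‖herm T j i‖ ^ 2) =
      ∑ i, ∑ j, (T (i, j) ^ 2 + T (j, i) ^ 2) :=
    Finset.sum_congr rfl fun i _ => Finset.sum_congr rfl fun j _ => norm_pair T i j
  simp only [Finset.sum_add_distrib] at h1
  rw [Finset.sum_comm (f := fun i j => ‖herm T j i‖ ^ 2),
    Finset.sum_comm (f := fun i j => T (j, i) ^ 2)] at h1
  have h2 : q T = ∑ i, ∑ j, T (i, j) ^ 2 := by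
    unfold q
    rw [← Finset.univ_product_univ, Finset.sum_product]
  rw [h2]; linarith

theorem trace_sq (T : Co n) : ((herm T ^ 2).trace).re = q T := by
  rw [pow_two, trace_sq_re _ (herm_star T), sum_norm_sq]

theorem Vp_lower (T : Co n) : q T - 4 * n ≤ Vp T := by
  set A := herm T with hA
  have hAs : star A = A := herm_star T
  set M : Mat n := (1 / 2 : ℂ) • A ^ 2 - (2 : ℂ) • 1 with hM
  have hMs : star M = M := by
    rw [hM, star_sub, star_smul, star_smul, star_pow, hAs, star_one]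
    simp
  have h1 := trace_sq_re M hMs
  have h2 : 0 ≤ ((M * M).trace).re := by
    rw [h1]; positivity
  have h3 : M * M = (1 / 4 : ℂ) • A ^ 4 - (2 : ℂ) • A ^ 2 + (4 : ℂ) • 1 := by
    rw [hM, sub_mul, mul_sub, mul_sub, smul_mul_smul_comm, smul_mul_smul_comm, smul_mul_smul_comm,
      smul_mul_smul_comm, ← pow_add, mul_one, one_mul, one_mul]
    norm_num
    module
  have h4 : ((M * M).trace).re = Vp T - q T + 4 * n := by
    rw [h3, Matrix.trace_add, Matrix.trace_sub, Matrix.trace_smul, Matrix.trace_smul,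
      Matrix.trace_smul, Matrix.trace_one]
    have h5 : Vp T = ((1 / 4 : ℂ) • (A ^ 4).trace - (A ^ 2).trace).re := by
      rw [Vp, Matrix.trace_sub, Matrix.trace_smul]
    rw [h5, ← trace_sq T, ← hA]
    simp only [Complex.add_re, Complex.sub_re, smul_eq_mul, Complex.mul_re, Complex.re_ofNat,
      Complex.im_ofNat, Fintype.card_fin, Complex.natCast_re]
    simp
    ring
  linarith

theorem w_le (hn : 0 < n) (T : Co n) : w T ≤ Real.exp (4 * n ^ 2) * Real.exp (-(q T)) := by
  rw [← Real.exp_add]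
  apply Real.exp_le_exp.mpr
  have h1 := Vp_lower T
  have hn' : (1 : ℝ) ≤ n := by exact_mod_cast hn
  have h2 := q_nonneg T
  nlinarith

/-- continuous functions of polynomial growth -/
def PB (f : Co n → ℂ) : Prop := Continuous f ∧ ∃ C : ℝ, ∃ p : ℕ, 0 ≤ C ∧ ∀ T, ‖f T‖ ≤ C * (1 + q T) ^ p

theorem PB.const (c : ℂ) : PB (fun _ : Co n => c) :=
  ⟨continuous_const, ‖c‖, 0, norm_nonneg _, fun T => by simp⟩

theorem PB.add {f g : Co n → ℂ} (hf : PB f) (hg : PB g) : PB (fun T => f T + g T) := by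
  obtain ⟨hf1, C, p, hC, hf2⟩ := hf
  obtain ⟨hg1, D, r, hD, hg2⟩ := hg
  refine ⟨hf1.add hg1, C + D, p + r, by positivity, fun T => ?_⟩
  have h1 : (1 : ℝ) ≤ 1 + q T := by have := q_nonneg T; linarith
  have h2 : (1 + q T) ^ p ≤ (1 + q T) ^ (p + r) := pow_le_pow_right₀ h1 (by omega)
  have h3 : (1 + q T) ^ r ≤ (1 + q T) ^ (p + r) := pow_le_pow_right₀ h1 (by omega)
  calc ‖f T + g T‖ ≤ ‖f T‖ + ‖g T‖ := norm_add_le _ _
    _ ≤ C * (1 + q T) ^ (p + r) + D * (1 + q T) ^ (p + r) := by
      refine add_le_add ((hf2 T).trans ?_) ((hg2 T).trans ?_)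
      · gcongr
      · gcongr
    _ = _ := by ring

theorem PB.mul {f g : Co n → ℂ} (hf : PB f) (hg : PB g) : PB (fun T => f T * g T) := by
  obtain ⟨hf1, C, p, hC, hf2⟩ := hf
  obtain ⟨hg1, D, r, hD, hg2⟩ := hg
  refine ⟨hf1.mul hg1, C * D, p + r, by positivity, fun T => ?_⟩
  have h1 : (0 : ℝ) ≤ 1 + q T := by have := q_nonneg T; linarith
  rw [norm_mul]
  calc ‖f T‖ * ‖g T‖ ≤ (C * (1 + q T) ^ p) * (D * (1 + q T) ^ r) :=
        mul_le_mul (hf2 T) (hg2 T) (norm_nonneg _) (by positivity)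
    _ = _ := by rw [pow_add]; ring

theorem PB.sum {ι : Type*} (s : Finset ι) {f : ι → Co n → ℂ} (hf : ∀ i ∈ s, PB (f i)) :
    PB (fun T => ∑ i ∈ s, f i T) := by
  classical
  induction s using Finset.induction_on with
  | empty => simpa using PB.const (n := n) 0
  | insert a s ha ih =>
    simp only [Finset.sum_insert ha]
    exact (hf a (Finset.mem_insert_self a s)).add
      (ih fun i hi => hf i (Finset.mem_insert_of_mem hi))

theorem PB.star {f : Co n → ℂ} (hf : PB f) : PB (fun T => (starRingEnd ℂ) (f T)) := by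
  obtain ⟨hf1, C, p, hC, hf2⟩ := hf
  exact ⟨Complex.continuous_conj.comp hf1, C, p, hC, fun T => by rw [RCLike.norm_conj]; exact hf2 T⟩

theorem PB.neg {f : Co n → ℂ} (hf : PB f) : PB (fun T => - f T) := by
  simpa using (PB.const (n := n) (-1)).mul hf

theorem PB.sub {f g : Co n → ℂ} (hf : PB f) (hg : PB g) : PB (fun T => f T - g T) := by
  simpa [sub_eq_add_neg] using hf.add hg.neg

theorem PB.of_bounded {f : Co n → ℂ} (hf : Continuous f) (C : ℝ) (h : ∀ T, ‖f T‖ ≤ C) : PB f := by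
  refine ⟨hf, max C 0, 0, le_max_right _ _, fun T => ?_⟩
  rw [pow_zero, mul_one]
  exact (h T).trans (le_max_left _ _)

theorem PB.pow {f : Co n → ℂ} (hf : PB f) (k : ℕ) : PB (fun T => f T ^ k) := by
  induction k with
  | zero => simpa using PB.const (n := n) 1
  | succ k ih => simp only [pow_succ]; exact ih.mul hf

theorem integrable_gauss : Integrable (fun T : Co n => Real.exp (-(q T) / 2)) := by
  have h1 : Integrable (fun T : Co n => ∏ a, Real.exp (-(1 / 2) * (T a) ^ 2)) :=
    MeasureTheory.Integrable.fintype_prod (𝕜 := ℝ) (f := fun _ t => Real.exp (-(1 / 2) * t ^ 2))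
      (fun _ => integrable_exp_neg_mul_sq (by norm_num))
  refine h1.congr (Filter.Eventually.of_forall fun T => ?_)
  simp only
  rw [← Real.exp_sum]
  congr 1
  unfold q
  rw [← Finset.mul_sum]; ring

theorem growth (p : ℕ) {s : ℝ} (hs : 0 ≤ s) :
    (1 + s) ^ p * Real.exp (-s) ≤ (2 ^ p * p.factorial * Real.exp (1 / 2)) * Real.exp (-s / 2) := by
  have h1 : ((1 + s) / 2) ^ p / p.factorial ≤ Real.exp ((1 + s) / 2) :=
    Real.pow_div_factorial_le_exp _ (by positivity) p
  have h2 : (1 + s) ^ p ≤ 2 ^ p * p.factorial * Real.exp ((1 + s) / 2) := by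
    rw [div_pow, div_div, div_le_iff₀ (by positivity)] at h1
    linarith
  calc (1 + s) ^ p * Real.exp (-s) ≤ (2 ^ p * p.factorial * Real.exp ((1 + s) / 2)) * Real.exp (-s) := by
        gcongr
    _ = _ := by
      rw [mul_assoc, ← Real.exp_add, mul_assoc (2 ^ p * (p.factorial : ℝ)), ← Real.exp_add]
      congr 2; ring

theorem PB.integrable {f : Co n → ℂ} (hn : 0 < n) (hf : PB f) :
    Integrable (fun T => f T * (w T : ℂ)) := by
  obtain ⟨hf1, C, p, hC, hf2⟩ := hf
  refine (integrable_gauss.const_mul (C * Real.exp (4 * n ^ 2) *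
    (2 ^ p * p.factorial * Real.exp (1 / 2)))).mono'
    ((hf1.mul (Complex.continuous_ofReal.comp w_cont)).aestronglyMeasurable)
    (Filter.Eventually.of_forall fun T => ?_)
  rw [norm_mul, Complex.norm_real, Real.norm_eq_abs, abs_of_pos (w_pos T)]
  have h1 : (0 : ℝ) ≤ 1 + q T := by have := q_nonneg T; linarith
  calc ‖f T‖ * w T ≤ (C * (1 + q T) ^ p) * (Real.exp (4 * n ^ 2) * Real.exp (-(q T))) :=
        mul_le_mul (hf2 T) (w_le hn T) (w_pos T).le (by positivity)
    _ = C * Real.exp (4 * n ^ 2) * ((1 + q T) ^ p * Real.exp (-(q T))) := by ring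
    _ ≤ C * Real.exp (4 * n ^ 2) * ((2 ^ p * p.factorial * Real.exp (1 / 2)) * Real.exp (-(q T) / 2)) :=
      mul_le_mul_of_nonneg_left (growth p (q_nonneg T)) (by positivity)
    _ = _ := by ring

/-- matrix valued functions with entries of polynomial growth -/
def PBM (M : Co n → Mat n) : Prop := ∀ i j, PB (fun T => M T i j)

theorem PBM.mul {M N : Co n → Mat n} (hM : PBM M) (hN : PBM N) : PBM (fun T => M T * N T) := by
  intro i j
  simp only [Matrix.mul_apply]
  exact PB.sum _ fun k _ => (hM i k).mul (hN k j)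

theorem PBM.add {M N : Co n → Mat n} (hM : PBM M) (hN : PBM N) : PBM (fun T => M T + N T) :=
  fun i j => (hM i j).add (hN i j)

theorem PBM.const (M : Mat n) : PBM (fun _ => M) := fun i j => PB.const _

theorem PBM.smul {f : Co n → ℂ} {M : Co n → Mat n} (hf : PB f) (hM : PBM M) :
    PBM (fun T => f T • M T) := fun i j => hf.mul (hM i j)

theorem PBM.pow {M : Co n → Mat n} (hM : PBM M) (k : ℕ) : PBM (fun T => M T ^ k) := by
  induction k with
  | zero => simpa using PBM.const (n := n) 1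
  | succ k ih => simp only [pow_succ]; exact ih.mul hM

theorem PBM.trace {M : Co n → Mat n} (hM : PBM M) : PB (fun T => (M T).trace) := by
  simp only [Matrix.trace, Matrix.diag_apply]
  exact PB.sum _ fun i _ => hM i i

theorem PBM.sum {ι : Type*} (s : Finset ι) {M : ι → Co n → Mat n} (hM : ∀ i ∈ s, PBM (M i)) :
    PBM (fun T => ∑ i ∈ s, M i T) := by
  intro i j
  simp only [Matrix.sum_apply]
  exact PB.sum s fun k hk => hM k hk i j

theorem PBM.herm : PBM (herm : Co n → Mat n) := by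
  intro i j
  refine ⟨(herm_cont (n := n)).matrix_elem i j, 1, 1, zero_le_one, fun T => ?_⟩
  rw [one_mul, pow_one]
  have h1 : ‖H203R3.MM.herm T i j‖ ^ 2 ≤ q T := by
    rw [← sum_norm_sq]
    refine le_trans ?_ (Finset.single_le_sum (f := fun i => ∑ j, ‖H203R3.MM.herm T i j‖ ^ 2)
      (fun _ _ => by positivity) (Finset.mem_univ i))
    exact Finset.single_le_sum (f := fun j => ‖H203R3.MM.herm T i j‖ ^ 2)
      (fun _ _ => by positivity) (Finset.mem_univ j)
  nlinarith [sq_nonneg (‖H203R3.MM.herm T i j‖ - 1), norm_nonneg (H203R3.MM.herm T i j)]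

end H203R3.MM
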