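import Pool.Agent.H203R3.MM.Deriv

open scoped BigOperators Matrix Matrix.Norms.L2Operator Topology
open MeasureTheory Filter

set_option linter.unusedSectionVars false

namespace H203R3.MM

variable {n : ℕ}

theorem entry_le (M : Mat n) (i j : Fin n) : ‖M i j‖ ≤ ‖M‖ := by
  have h1 := Matrix.l2_opNorm_mulVec M (EuclideanSpace.single j (1 : ℂ))
  rw [PiLp.norm_single, norm_one, mul_one] at h1
  refine le_trans ?_ h1
  have h2 := PiLp.norm_apply_le ((WithLp.toLp 2 (M *ᵥ (EuclideanSpace.single j (1 : ℂ)).ofLp) :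
    EuclideanSpace ℂ (Fin n))) i
  refine le_trans (le_of_eq ?_) h2
  simp

theorem trace_le (M : Mat n) : ‖M.trace‖ ≤ n * ‖M‖ := by
  rw [Matrix.trace]
  refine (norm_sum_le _ _).trans ?_
  calc ∑ i, ‖M.diag i‖ ≤ ∑ _i : Fin n, ‖M‖ := Finset.sum_le_sum fun i _ => entry_le M i i
    _ = n * ‖M‖ := by simp

/-- resolvent -/
noncomputable def Rz (z : ℂ) (T : Co n) : Mat n := (z • (1 : Mat n) - herm T)⁻¹

theorem isUnit_z {z : ℂ} (hz : z.im ≠ 0) (T : Co n) : IsUnit (z • (1 : Mat n) - herm T) := by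
  have hA : IsSelfAdjoint (herm T) := herm_star T
  by_contra hcon
  have hmem : z ∈ spectrum ℂ (herm T) := by
    rw [spectrum.mem_iff, Algebra.algebraMap_eq_smul_one]
    exact hcon
  have := hA.mem_spectrum_eq_re hmem
  apply hz
  rw [this]; simp

theorem R_mul {z : ℂ} (hz : z.im ≠ 0) (T : Co n) : Rz z T * (z • (1 : Mat n) - herm T) = 1 :=
  Matrix.nonsing_inv_mul _ ((Matrix.isUnit_iff_isUnit_det _).mp (isUnit_z hz T))

theorem mul_R {z : ℂ} (hz : z.im ≠ 0) (T : Co n) : (z • (1 : Mat n) - herm T) * Rz z T = 1 :=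
  Matrix.mul_nonsing_inv _ ((Matrix.isUnit_iff_isUnit_det _).mp (isUnit_z hz T))

theorem star_R {z : ℂ} (hz : z.im ≠ 0) (T : Co n) :
    (star z • (1 : Mat n) - herm T) * star (Rz z T) = 1 := by
  have h := congrArg star (R_mul hz T)
  rw [star_mul, star_sub, star_smul, star_one, herm_star] at h
  exact h

theorem norm_R {z : ℂ} (hz : z.im ≠ 0) (T : Co n) : ‖Rz z T‖ ≤ 1 / |z.im| := by
  set R := Rz z T with hR
  have h1 : R - star R = (star z - z) • (R * star R) := by
    have e1 : R * ((star z • (1 : Mat n) - herm T) * star R) = R := by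
      rw [star_R hz, mul_one]
    have e2 : (R * (z • (1 : Mat n) - herm T)) * star R = star R := by
      rw [R_mul hz, one_mul]
    calc R - star R = R * ((star z • (1 : Mat n) - herm T) * star R) -
          (R * (z • (1 : Mat n) - herm T)) * star R := by rw [e1, e2]
      _ = R * ((star z • (1 : Mat n) - herm T) - (z • (1 : Mat n) - herm T)) * star R := by
        generalize (star z • (1 : Mat n) - herm T) = X1
        generalize (z • (1 : Mat n) - herm T) = X2
        noncomm_ring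
      _ = (star z - z) • (R * star R) := by
        rw [sub_sub_sub_cancel_right, ← sub_smul, mul_smul_comm, mul_one, smul_mul_assoc]
  have h2 : ‖R * star R‖ = ‖R‖ * ‖R‖ := CStarRing.norm_self_mul_star
  have h3 : ‖star z - z‖ = 2 * |z.im| := by
    have : star z - z = ((-(2 * z.im) : ℝ) : ℂ) * Complex.I := by
      apply Complex.ext <;> simp
      ring
    rw [this, norm_mul, Complex.norm_I, mul_one, Complex.norm_real, Real.norm_eq_abs, abs_neg,
      abs_mul]
    simp
  have h4 : ‖R - star R‖ ≤ 2 * ‖R‖ := by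
    refine (norm_sub_le _ _).trans ?_
    rw [norm_star]; linarith
  rw [h1, norm_smul, h3, h2] at h4
  have hy : 0 < |z.im| := abs_pos.mpr hz
  rw [le_div_iff₀ hy]
  by_contra hcon
  rw [not_le] at hcon
  have hRp : 0 < ‖R‖ := by
    by_contra h0
    have : ‖R‖ = 0 := le_antisymm (not_lt.mp h0) (norm_nonneg _)
    rw [this] at hcon; linarith
  nlinarith

theorem R_sub {z : ℂ} (hz : z.im ≠ 0) (S T : Co n) :
    Rz z S - Rz z T = Rz z S * (herm S - herm T) * Rz z T := by
  have e1 : Rz z S * ((z • (1 : Mat n) - herm T) * Rz z T) = Rz z S := by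
    rw [mul_R hz, mul_one]
  have e2 : (Rz z S * (z • (1 : Mat n) - herm S)) * Rz z T = Rz z T := by
    rw [R_mul hz, one_mul]
  calc Rz z S - Rz z T = Rz z S * ((z • (1 : Mat n) - herm T) * Rz z T) -
        (Rz z S * (z • (1 : Mat n) - herm S)) * Rz z T := by rw [e1, e2]
    _ = _ := by
      rw [← mul_assoc, ← sub_mul, ← mul_sub]
      congr 2
      abel

theorem R_cont {z : ℂ} (hz : z.im ≠ 0) : Continuous (Rz z : Co n → Mat n) := by
  rw [continuous_iff_continuousAt]
  intro T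
  have h1 : Tendsto (fun S => ‖herm S - herm T‖ * (1 / |z.im|) ^ 2) (𝓝 T) (𝓝 0) := by
    have h2 : Tendsto (fun S => ‖herm S - herm T‖) (𝓝 T) (𝓝 ‖herm T - herm T‖) :=
      ((herm_cont.tendsto T).sub_const _).norm
    simp only [sub_self, norm_zero] at h2
    have h3 := h2.mul_const ((1 / |z.im|) ^ 2)
    rw [zero_mul] at h3
    exact h3
  rw [ContinuousAt, tendsto_iff_norm_sub_tendsto_zero]
  refine squeeze_zero (fun _ => norm_nonneg _) (fun S => ?_) h1
  rw [R_sub hz]
  calc ‖Rz z S * (herm S - herm T) * Rz z T‖ ≤ ‖Rz z S‖ * ‖herm S - herm T‖ * ‖Rz z T‖ :=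
        (norm_mul_le _ _).trans (by gcongr; exact norm_mul_le _ _)
    _ ≤ (1 / |z.im|) * ‖herm S - herm T‖ * (1 / |z.im|) := by
      gcongr
      · exact norm_R hz S
      · exact norm_R hz T
    _ = _ := by ring

theorem PBM.R {z : ℂ} (hz : z.im ≠ 0) : PBM (Rz z : Co n → Mat n) := fun i j =>
  PB.of_bounded ((R_cont hz).matrix_elem i j) (1 / |z.im|)
    fun T => (entry_le _ _ _).trans (norm_R hz T)

theorem hasDerivAt_R {z : ℂ} (hz : z.im ≠ 0) (T : Co n) (a : Fin n × Fin n) :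
    HasDerivAt (fun s : ℝ => Rz z (T + s • ev a)) (Rz z T * B a * Rz z T) 0 := by
  rw [hasDerivAt_iff_tendsto_slope]
  have hc : Tendsto (fun s : ℝ => Rz z (T + s • ev a)) (𝓝[≠] 0) (𝓝 (Rz z T)) := by
    have h1 : Continuous (fun s : ℝ => Rz z (T + s • ev a)) :=
      (R_cont hz).comp (by fun_prop)
    have h2 := h1.tendsto 0
    simp only [zero_smul, add_zero] at h2
    exact h2.mono_left nhdsWithin_le_nhds
  have hlim := (hc.mul_const (B a)).mul_const (Rz z T)
  refine hlim.congr' ?_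
  filter_upwards [self_mem_nhdsWithin] with s hs
  have hs0 : s ≠ 0 := hs
  rw [slope_def_module]
  simp only [zero_smul, add_zero, sub_zero]
  rw [R_sub hz, herm_path, add_sub_cancel_left, mul_smul_comm, smul_mul_assoc, smul_smul,
    inv_mul_cancel₀ hs0, one_smul]

/-- normalised trace of the resolvent -/
noncomputable def G (z : ℂ) (T : Co n) : ℂ := (1 / n : ℂ) * (Rz z T).trace

/-- normalised moments -/
noncomputable def tau (k : ℕ) (T : Co n) : ℂ := (1 / n : ℂ) * (herm T ^ k).trace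

/-- the loop equation defect -/
noncomputable def K (z : ℂ) (T : Co n) : ℂ :=
  G z T ^ 2 - (z ^ 3 - 2 * z) * G z T + z ^ 2 + z * tau 1 T + tau 2 T - 2

/-- gradient of `K` -/
noncomputable def Y0 (z : ℂ) (T : Co n) : Mat n :=
  (1 / n : ℂ) • ((2 * G z T - (z ^ 3 - 2 * z)) • (Rz z T * Rz z T) + z • 1 + (2 : ℂ) • herm T)

theorem norm_G (hn : 0 < n) {z : ℂ} (hz : z.im ≠ 0) (T : Co n) : ‖G z T‖ ≤ 1 / |z.im| := by
  unfold G
  rw [norm_mul]
  have hn' : (0 : ℝ) < n := by exact_mod_cast hn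
  have h1 : ‖(1 / n : ℂ)‖ = 1 / n := by simp
  rw [h1]
  calc 1 / (n : ℝ) * ‖(Rz z T).trace‖ ≤ 1 / n * (n * (1 / |z.im|)) := by
        gcongr
        exact (trace_le _).trans (by gcongr; exact norm_R hz T)
    _ = 1 / |z.im| := by field_simp

theorem hasDerivAt_G {z : ℂ} (hz : z.im ≠ 0) (T : Co n) (a : Fin n × Fin n) :
    HasDerivAt (fun s : ℝ => G z (T + s • ev a)) ((1 / n : ℂ) * (B a * (Rz z T * Rz z T)).trace) 0 := by
  have h1 := (hmtrace (hasDerivAt_R hz T a)).const_mul (1 / n : ℂ)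
  have e : (Rz z T * B a * Rz z T).trace = (B a * (Rz z T * Rz z T)).trace := by
    rw [mul_assoc, Matrix.trace_mul_comm, mul_assoc]
  rw [e] at h1
  exact h1

theorem hasDerivAt_tau (T : Co n) (a : Fin n × Fin n) (k : ℕ) :
    HasDerivAt (fun s : ℝ => tau k (T + s • ev a))
      ((1 / n : ℂ) * (k * (B a * herm T ^ (k - 1)).trace)) 0 := by
  have h1 := (hmtrace (hasDerivAt_pow T a k)).const_mul (1 / n : ℂ)
  rw [trace_powD] at h1
  exact h1

theorem hasDerivAt_K {z : ℂ} (hz : z.im ≠ 0) (T : Co n) (a : Fin n × Fin n) :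
    HasDerivAt (fun s : ℝ => K z (T + s • ev a)) ((B a * Y0 z T).trace) 0 := by
  have hG := hasDerivAt_G hz T a
  have h1 := hasDerivAt_tau T a 1
  have h2 := hasDerivAt_tau T a 2
  have h := (((((hG.pow 2).sub (hG.const_mul (z ^ 3 - 2 * z))).add_const (z ^ 2)).add
    (h1.const_mul z)).add h2).sub_const 2
  simp only [zero_smul, add_zero] at h
  refine (h.congr_deriv ?_)
  simp only [Y0, mul_smul_comm, mul_add, Matrix.trace_smul, Matrix.trace_add, smul_eq_mul,
    Nat.cast_ofNat, Nat.cast_one, Nat.sub_self, pow_zero, mul_one, Nat.add_one_sub_one, pow_one,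
    one_mul]
  ring

theorem hasDerivAt_Kstar {z : ℂ} (hz : z.im ≠ 0) (T : Co n) (a : Fin n × Fin n) :
    HasDerivAt (fun s : ℝ => (starRingEnd ℂ) (K z (T + s • ev a))) ((B a * star (Y0 z T)).trace) 0 := by
  have h := Complex.conjCLE.toContinuousLinearMap.hasFDerivAt.comp_hasDerivAt (0 : ℝ)
    (hasDerivAt_K hz T a)
  have e : Complex.conjCLE.toContinuousLinearMap ((B a * Y0 z T).trace) =
      (B a * star (Y0 z T)).trace := by
    have h1 : (star (B a * Y0 z T)).trace = star ((B a * Y0 z T).trace) :=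
      Matrix.trace_conjTranspose _
    rw [star_mul, B_star, Matrix.trace_mul_comm] at h1
    exact h1.symm
  rw [e] at h
  exact h

theorem PB.G {z : ℂ} (hz : z.im ≠ 0) : PB (G z : Co n → ℂ) := (PB.const _).mul (PBM.R hz).trace

theorem PB.tau (k : ℕ) : PB (tau k : Co n → ℂ) := (PB.const _).mul (PBM.herm.pow k).trace

theorem PB.K {z : ℂ} (hz : z.im ≠ 0) : PB (K z : Co n → ℂ) :=
  ((((((PB.G hz).pow 2).sub ((PB.const _).mul (PB.G hz))).add (PB.const _)).add
    ((PB.const _).mul (PB.tau 1))).add (PB.tau 2)).sub (PB.const 2)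

theorem PBM.starM {M : Co n → Mat n} (hM : PBM M) : PBM (fun T => star (M T)) :=
  fun i j => (hM j i).star

theorem PBM.Y0 {z : ℂ} (hz : z.im ≠ 0) : PBM (Y0 z : Co n → Mat n) := by
  unfold H203R3.MM.Y0
  refine PBM.smul (PB.const _) ?_
  refine PBM.add (PBM.add (PBM.smul ?_ ((PBM.R hz).mul (PBM.R hz))) (PBM.const _))
    (PBM.smul (PB.const _) PBM.herm)
  exact ((PB.const _).mul (PB.G hz)).sub (PB.const _)

theorem R_Pd {z : ℂ} (hz : z.im ≠ 0) (T : Co n) : Rz z T * Pd T =
    (z ^ 3 - 2 * z) • Rz z T - (z ^ 2 • 1 + z • herm T + herm T ^ 2 - (2 : ℂ) • 1) := by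
  set A := herm T with hA
  have h1 : Pd T = (z ^ 3 - 2 * z) • (1 : Mat n) -
      (z • (1 : Mat n) - A) * (z ^ 2 • 1 + z • A + A ^ 2 - (2 : ℂ) • 1) := by
    rw [Pd, ← hA]
    simp only [sub_mul, mul_sub, mul_add, smul_mul_assoc, one_mul, mul_smul_comm, mul_one, smul_sub,
      smul_add, smul_smul, ← pow_succ', pow_two A]
    have e : A * (A * A) = A ^ 3 := by rw [pow_three]
    rw [e]
    module
  rw [h1, mul_sub, ← mul_assoc, R_mul hz, one_mul, mul_smul_comm, mul_one]

/-- main bound: `n² ∫ |K|² w ≤ C(z) ∫ w` -/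
theorem K_bound (hn : 0 < n) {z : ℂ} (hz : z.im ≠ 0) :
    (n : ℝ) ^ 2 * ∫ T : Co n, ‖K z T‖ ^ 2 * w T ≤
      ((2 / |z.im| + ‖z ^ 3 - 2 * z‖) * (1 / |z.im|) ^ 3 + ‖z‖ * (1 / |z.im|) +
        2 * (‖z‖ * (1 / |z.im|) + 1)) * ∫ T : Co n, w T := by
  have hn' : (0 : ℝ) < n := by exact_mod_cast hn
  have hnc : (n : ℂ) ≠ 0 := by exact_mod_cast hn.ne'
  set y := |z.im| with hy
  have hyp : 0 < y := abs_pos.mpr hz
  set Cz := ((2 / y + ‖z ^ 3 - 2 * z‖) * (1 / y) ^ 3 + ‖z‖ * (1 / y) +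
        2 * (‖z‖ * (1 / y) + 1)) with hCz
  have pR := PBM.R (n := n) hz
  have hSD := SD hn (V := Rz z) (V' := fun T a => Rz z T * B a * Rz z T)
    (F := fun T => (starRingEnd ℂ) (K z T)) (Y := fun T => star (Y0 z T))
    (hasDerivAt_R hz) (hasDerivAt_Kstar hz) pR (fun a => (pR.mul (PBM.const _)).mul pR)
    (PB.K hz).star (PBM.Y0 hz).starM
  have e1 : ∀ T : Co n, (∑ a, (B a * (Rz z T * B a * Rz z T)).trace) *
      (starRingEnd ℂ) (K z T) + (Rz z T * star (Y0 z T)).trace
      - n * (Rz z T * Pd T).trace * (starRingEnd ℂ) (K z T) =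
      (n : ℂ) ^ 2 * (K z T * (starRingEnd ℂ) (K z T)) + (Rz z T * star (Y0 z T)).trace := by
    intro T
    have a1 : ∑ a, (B a * (Rz z T * B a * Rz z T)).trace = (Rz z T).trace * (Rz z T).trace := by
      rw [← sum_tr_mul]
      refine Finset.sum_congr rfl fun a _ => ?_
      rw [mul_assoc (B a) (Rz z T) (B a), mul_assoc (Rz z T) (B a) (Rz z T), mul_assoc, mul_assoc]
    have a2 : (Rz z T * Pd T).trace = (z ^ 3 - 2 * z) * (Rz z T).trace -
        (z ^ 2 * n + z * (herm T ^ 1).trace + (herm T ^ 2).trace - 2 * n) := by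
      rw [R_Pd hz]
      simp only [Matrix.trace_sub, Matrix.trace_add, Matrix.trace_smul, smul_eq_mul,
        Matrix.trace_one, Fintype.card_fin, pow_one]
    have a3 : (Rz z T).trace = n * G z T := by unfold G; field_simp
    have a4 : ∀ k, (herm T ^ k).trace = n * tau k T := by intro k; unfold tau; field_simp
    rw [a1, a2, a3, a4, a4]
    unfold K
    ring
  simp only [e1] at hSD
  have p1 : PB (fun T : Co n => (n : ℂ) ^ 2 * (K z T * (starRingEnd ℂ) (K z T))) :=
    (PB.const _).mul ((PB.K hz).mul (PB.K hz).star)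
  have p2 : PB (fun T : Co n => (Rz z T * star (Y0 z T)).trace) :=
    (pR.mul (PBM.Y0 hz).starM).trace
  have i1 := p1.integrable hn
  have i2 := p2.integrable hn
  simp only [add_mul] at hSD
  rw [integral_add i1 i2] at hSD
  have e2 : ∫ T : Co n, (n : ℂ) ^ 2 * (K z T * (starRingEnd ℂ) (K z T)) * (w T : ℂ) =
      (((n : ℝ) ^ 2 * ∫ T : Co n, ‖K z T‖ ^ 2 * w T : ℝ) : ℂ) := by
    rw [← integral_const_mul, ← integral_complex_ofReal]
    congr 1
    funext T
    rw [Complex.mul_conj, Complex.normSq_eq_norm_sq]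
    push_cast
    ring
  have iw : Integrable (fun T : Co n => w T) := by
    have := (PB.const (n := n) 1).integrable hn
    simp only [one_mul] at this
    simpa using this.re
  have e3 : (n : ℝ) ^ 2 * ∫ T : Co n, ‖K z T‖ ^ 2 * w T ≤
      ‖∫ T : Co n, (Rz z T * star (Y0 z T)).trace * (w T : ℂ)‖ := by
    have h1 : ∫ T : Co n, (Rz z T * star (Y0 z T)).trace * (w T : ℂ) =
        -∫ T : Co n, (n : ℂ) ^ 2 * (K z T * (starRingEnd ℂ) (K z T)) * (w T : ℂ) := by
      rw [eq_neg_iff_add_eq_zero, add_comm]; exact hSD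
    rw [h1, norm_neg, e2, Complex.norm_real]
    exact le_abs_self _
  refine e3.trans ?_
  have hbd : ∀ T : Co n, ‖(Rz z T * star (Y0 z T)).trace‖ ≤ Cz := by
    intro T
    have hRn := norm_R hz T
    have hGn := norm_G hn hz T
    have s1 : star (Y0 z T) = (1 / n : ℂ) • ((starRingEnd ℂ) (2 * G z T - (z ^ 3 - 2 * z)) •
        (star (Rz z T) * star (Rz z T)) + (starRingEnd ℂ) z • 1 + (2 : ℂ) • herm T) := by
      unfold Y0
      simp only [star_smul, star_add, star_mul, star_one, herm_star]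
      congr 1
      · simp
      · congr 2
        simp
    have s2 : Rz z T * herm T = z • Rz z T - 1 := by
      have := R_mul hz T
      rw [mul_sub, mul_smul_comm, mul_one] at this
      rw [← this]; abel
    have s3 : (Rz z T * star (Y0 z T)).trace = (1 / n : ℂ) *
        ((starRingEnd ℂ) (2 * G z T - (z ^ 3 - 2 * z)) *
          (Rz z T * (star (Rz z T) * star (Rz z T))).trace + (starRingEnd ℂ) z * (Rz z T).trace +
          2 * (z • Rz z T - 1).trace) := by
      rw [s1]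
      simp only [mul_smul_comm, mul_add, mul_one, Matrix.trace_smul, Matrix.trace_add, smul_eq_mul,
        s2]
    rw [s3, norm_mul]
    have hn1 : ‖(1 / n : ℂ)‖ = 1 / n := by simp
    rw [hn1]
    have b1 : ‖(starRingEnd ℂ) (2 * G z T - (z ^ 3 - 2 * z))‖ ≤ 2 / y + ‖z ^ 3 - 2 * z‖ := by
      rw [RCLike.norm_conj]
      refine (norm_sub_le _ _).trans ?_
      rw [norm_mul, Complex.norm_ofNat]
      have : 2 * ‖G z T‖ ≤ 2 * (1 / y) := by gcongr
      linarith [this, (by ring : 2 * (1 / y) = 2 / y)]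
    have b2 : ‖(Rz z T * (star (Rz z T) * star (Rz z T))).trace‖ ≤ n * (1 / y) ^ 3 := by
      refine (trace_le _).trans ?_
      gcongr
      calc ‖Rz z T * (star (Rz z T) * star (Rz z T))‖ ≤ ‖Rz z T‖ * (‖star (Rz z T)‖ * ‖star (Rz z T)‖) :=
            (norm_mul_le _ _).trans (by gcongr; exact norm_mul_le _ _)
        _ = ‖Rz z T‖ ^ 3 := by rw [norm_star]; ring
        _ ≤ (1 / y) ^ 3 := by gcongr
    have b3 : ‖(Rz z T).trace‖ ≤ n * (1 / y) := (trace_le _).trans (by gcongr)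
    have b4 : ‖(z • Rz z T - 1).trace‖ ≤ n * (‖z‖ * (1 / y) + 1) := by
      rw [Matrix.trace_sub, Matrix.trace_smul, Matrix.trace_one, Fintype.card_fin]
      refine (norm_sub_le _ _).trans ?_
      rw [smul_eq_mul, norm_mul, Complex.norm_natCast]
      have : ‖z‖ * ‖(Rz z T).trace‖ ≤ ‖z‖ * (n * (1 / y)) := by gcongr
      linarith
    calc 1 / (n : ℝ) * ‖(starRingEnd ℂ) (2 * G z T - (z ^ 3 - 2 * z)) *
          (Rz z T * (star (Rz z T) * star (Rz z T))).trace + (starRingEnd ℂ) z * (Rz z T).trace +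
          2 * (z • Rz z T - 1).trace‖
        ≤ 1 / (n : ℝ) * ((2 / y + ‖z ^ 3 - 2 * z‖) * (n * (1 / y) ^ 3) + ‖z‖ * (n * (1 / y)) +
          2 * (n * (‖z‖ * (1 / y) + 1))) := by
          refine mul_le_mul_of_nonneg_left ?_ (by positivity)
          refine (norm_add_le _ _).trans (add_le_add ((norm_add_le _ _).trans (add_le_add ?_ ?_)) ?_)
          · rw [norm_mul]
            exact mul_le_mul b1 b2 (norm_nonneg _) (by positivity)
          · rw [norm_mul, RCLike.norm_conj]; gcongr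
          · rw [norm_mul, Complex.norm_ofNat]; gcongr
      _ = Cz := by rw [hCz]; field_simp
  calc ‖∫ T : Co n, (Rz z T * star (Y0 z T)).trace * (w T : ℂ)‖
      ≤ ∫ T : Co n, ‖(Rz z T * star (Y0 z T)).trace * (w T : ℂ)‖ := norm_integral_le_integral_norm _
    _ ≤ ∫ T : Co n, Cz * w T := by
      refine integral_mono i2.norm (iw.const_mul Cz) fun T => ?_
      simp only
      rw [norm_mul, Complex.norm_real, Real.norm_eq_abs, abs_of_pos (w_pos T)]
      exact mul_le_mul_of_nonneg_right (hbd T) (w_pos T).le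
    _ = Cz * ∫ T : Co n, w T := integral_const_mul _ _

end H203R3.MM
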