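import Pool.Agent.H203R3.MM.Moments
import Pool.Agent.H203R3.MM.Alg

open scoped BigOperators Matrix Matrix.Norms.L2Operator Topology
open MeasureTheory Filter

set_option linter.unusedSectionVars false

namespace H203R3.MM

variable {n : ℕ}

theorem G_lip (hn : 0 < n) {z w : ℂ} (hz : z.im ≠ 0) (hw : w.im ≠ 0) (T : Co n) :
    ‖G z T - G w T‖ ≤ ‖z - w‖ * (1 / |z.im| * (1 / |w.im|)) := by
  have hn' : (0 : ℝ) < n := by exact_mod_cast hn
  have e : Rz z T - Rz w T = (w - z) • (Rz z T * Rz w T) := by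
    have e1 : Rz z T * ((w • (1 : Mat n) - herm T) * Rz w T) = Rz z T := by
      rw [mul_R hw, mul_one]
    have e2 : (Rz z T * (z • (1 : Mat n) - herm T)) * Rz w T = Rz w T := by
      rw [R_mul hz, one_mul]
    calc Rz z T - Rz w T = Rz z T * ((w • (1 : Mat n) - herm T) * Rz w T) -
          (Rz z T * (z • (1 : Mat n) - herm T)) * Rz w T := by rw [e1, e2]
      _ = Rz z T * ((w • (1 : Mat n) - herm T) - (z • (1 : Mat n) - herm T)) * Rz w T := by
        generalize (w • (1 : Mat n) - herm T) = X1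
        generalize (z • (1 : Mat n) - herm T) = X2
        noncomm_ring
      _ = (w - z) • (Rz z T * Rz w T) := by
        rw [sub_sub_sub_cancel_right, ← sub_smul, mul_smul_comm, mul_one, smul_mul_assoc]
  have e3 : G z T - G w T = (1 / n : ℂ) * ((w - z) * (Rz z T * Rz w T).trace) := by
    unfold G
    rw [← mul_sub, ← Matrix.trace_sub, e, Matrix.trace_smul, smul_eq_mul]
  rw [e3, norm_mul, norm_mul, norm_sub_rev w z]
  have h1 : ‖(1 / n : ℂ)‖ = 1 / n := by simp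
  rw [h1]
  have h2 : ‖(Rz z T * Rz w T).trace‖ ≤ n * (1 / |z.im| * (1 / |w.im|)) := by
    refine (trace_le _).trans ?_
    gcongr
    refine (norm_mul_le _ _).trans ?_
    exact mul_le_mul (norm_R hz T) (norm_R hw T) (norm_nonneg _) (by positivity)
  calc 1 / (n : ℝ) * (‖z - w‖ * ‖(Rz z T * Rz w T).trace‖)
      ≤ 1 / (n : ℝ) * (‖z - w‖ * (n * (1 / |z.im| * (1 / |w.im|)))) := by gcongr
    _ = _ := by field_simp

theorem t1_sq (hn : 0 < n) (T : Co n) : t 1 T ^ 2 ≤ t 2 T := by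
  have h1 := M_mul hn 1 1 T
  have h2 := M_even 1 T
  norm_num at h1 h2
  rw [h2] at h1
  have h3 := t_abs 1 T
  calc t 1 T ^ 2 = |t 1 T| * |t 1 T| := by rw [← abs_mul, ← pow_two, abs_of_nonneg (sq_nonneg _)]
    _ ≤ M 1 T * M 1 T := mul_le_mul h3 h3 (abs_nonneg _) (M_nonneg _ _)
    _ ≤ _ := h1

/-- compactness: bounded functions converge along ultrafilters -/
theorem ulim {ι : Type*} (U : Ultrafilter ι) (f : ι → ℂ) (b : ℝ) (h : ∀ i, ‖f i‖ ≤ b) :
    ∃ x : ℂ, Tendsto f U (𝓝 x) := by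
  have hc : IsCompact (Metric.closedBall (0 : ℂ) b) := isCompact_closedBall _ _
  obtain ⟨x, _, hx⟩ := hc.ultrafilter_le_nhds (U.map f) (by
    rw [Ultrafilter.coe_map, le_principal_iff, mem_map]
    refine Filter.univ_mem' fun i => ?_
    simp only [Set.mem_preimage, Metric.mem_closedBall, dist_zero_right]
    exact h i)
  exact ⟨x, hx⟩

/-- abstract form of the uniqueness statement -/
theorem abs_uniq {ι : Type*} (U : Ultrafilter ι) (a1 a2 : ι → ℝ) (g : ι → ℂ → ℂ) {B ε : ℝ}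
    (hε : 0 < ε) (h1 : ∀ i, |a1 i| ≤ B) (h2 : ∀ i, |a2 i| ≤ B)
    (hg : ∀ i z, 0 < z.im → ‖g i z‖ ≤ 1 / |z.im|)
    (hL : ∀ i z w, 0 < z.im → 0 < w.im → ‖g i z - g i w‖ ≤ ‖z - w‖ * (1 / |z.im| * (1 / |w.im|)))
    (hK : ∀ z : ℂ, 0 < z.im → Tendsto (fun i => g i z ^ 2 - (z ^ 3 - 2 * z) * g i z + z ^ 2 +
      z * (a1 i : ℂ) + (a2 i : ℂ) - 2) U (𝓝 0))
    (hlow : ∀ i, ε ≤ a1 i ^ 2 + (a2 i - 2) ^ 2) : False := by
  obtain ⟨l1, hl1⟩ := ulim U (fun i => (a1 i : ℂ)) B fun i => by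
    rw [Complex.norm_real]; exact h1 i
  obtain ⟨l2, hl2⟩ := ulim U (fun i => (a2 i : ℂ)) B fun i => by
    rw [Complex.norm_real]; exact h2 i
  have hr1 : Tendsto a1 U (𝓝 l1.re) := by
    have := (Complex.continuous_re.tendsto l1).comp hl1
    exact this
  have hr2 : Tendsto a2 U (𝓝 l2.re) := by
    have := (Complex.continuous_re.tendsto l2).comp hl2
    exact this
  have e1 : l1 = (l1.re : ℂ) :=
    tendsto_nhds_unique hl1 ((Complex.continuous_ofReal.tendsto _).comp hr1)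
  have e2 : l2 = (l2.re : ℂ) :=
    tendsto_nhds_unique hl2 ((Complex.continuous_ofReal.tendsto _).comp hr2)
  have hex : ∀ z : ℂ, ∃ x : ℂ, 0 < z.im → Tendsto (fun i => g i z) U (𝓝 x) := by
    intro z
    by_cases hz : 0 < z.im
    · obtain ⟨x, hx⟩ := ulim U (fun i => g i z) (1 / |z.im|) fun i => hg i z hz
      exact ⟨x, fun _ => hx⟩
    · exact ⟨0, fun h => absurd h hz⟩
  choose γ hγ using hex
  have hloop : ∀ z : ℂ, 0 < z.im → γ z ^ 2 - (z ^ 3 - 2 * z) * γ z + z ^ 2 + z * l1 + l2 - 2 = 0 := by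
    intro z hz
    have h3 := hγ z hz
    have h4 := (((((h3.pow 2).sub (h3.const_mul (z ^ 3 - 2 * z))).add_const (z ^ 2)).add
      (hl1.const_mul z)).add hl2).sub_const 2
    exact tendsto_nhds_unique h4 (hK z hz)
  have hres := key_limit (p := -4 * l1.re) (q := -4 * (l2.re - 2))
    (W := fun z => z ^ 3 - 2 * z - 2 * γ z)
    (by
      intro z hz
      have h5 := hloop z hz
      rw [e1, e2] at h5
      unfold Dz
      push_cast
      linear_combination 4 * h5)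
    (by
      intro α hα
      refine ⟨(3 * ‖α‖ ^ 2 + 3 * ‖α‖ + 1) + 2 + 2 * (1 / |α.im| * (1 / |α.im|)), fun s hs hs1 => ?_⟩
      have him : (α + (s : ℂ)).im = α.im := by simp
      have hα' : 0 < (α + (s : ℂ)).im := by rw [him]; exact hα
      have hγL : ‖γ (α + s) - γ α‖ ≤ s * (1 / |α.im| * (1 / |α.im|)) := by
        have h6 := (hγ _ hα').sub (hγ α hα)
        refine le_of_tendsto h6.norm (Eventually.of_forall fun i => ?_)
        have h7 := hL i _ _ hα' hα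
        rw [him] at h7
        refine h7.trans (le_of_eq ?_)
        rw [add_sub_cancel_left, Complex.norm_real, Real.norm_eq_abs, abs_of_pos hs]
      have hs' : ‖(s : ℂ)‖ = s := by rw [Complex.norm_real, Real.norm_eq_abs, abs_of_pos hs]
      have e3 : ((α + s) ^ 3 - 2 * (α + s) - 2 * γ (α + s)) - (α ^ 3 - 2 * α - 2 * γ α) =
          (s : ℂ) * (3 * α ^ 2 + 3 * α * s + s ^ 2) - 2 * s - 2 * (γ (α + s) - γ α) := by ring
      rw [e3]
      refine (norm_sub_le _ _).trans ?_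
      have b1 : ‖(s : ℂ) * (3 * α ^ 2 + 3 * α * s + s ^ 2) - 2 * s‖ ≤
          ((3 * ‖α‖ ^ 2 + 3 * ‖α‖ + 1) + 2) * s := by
        refine (norm_sub_le _ _).trans ?_
        rw [norm_mul, norm_mul, hs', Complex.norm_ofNat]
        have b2 : ‖3 * α ^ 2 + 3 * α * (s : ℂ) + (s : ℂ) ^ 2‖ ≤ 3 * ‖α‖ ^ 2 + 3 * ‖α‖ + 1 := by
          refine (norm_add_le _ _).trans (add_le_add ((norm_add_le _ _).trans (add_le_add ?_ ?_)) ?_)
          · rw [norm_mul, norm_pow, Complex.norm_ofNat]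
          · rw [norm_mul, norm_mul, Complex.norm_ofNat, hs']
            have := norm_nonneg α
            nlinarith
          · rw [norm_pow, hs']; nlinarith
        nlinarith
      have b3 : ‖2 * (γ (α + s) - γ α)‖ ≤ 2 * (s * (1 / |α.im| * (1 / |α.im|))) := by
        rw [norm_mul, Complex.norm_ofNat]; gcongr
      calc _ ≤ ((3 * ‖α‖ ^ 2 + 3 * ‖α‖ + 1) + 2) * s + 2 * (s * (1 / |α.im| * (1 / |α.im|))) :=
            add_le_add b1 b3
        _ = _ := by ring)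
  obtain ⟨hp, hq⟩ := hres
  have hlim := (hr1.pow 2).add ((hr2.sub_const 2).pow 2)
  have hge : ε ≤ l1.re ^ 2 + (l2.re - 2) ^ 2 := ge_of_tendsto hlim (Eventually.of_forall hlow)
  have z1 : l1.re = 0 := by linarith
  have z2 : l2.re = 2 := by linarith
  rw [z1, z2] at hge
  norm_num at hge
  linarith

theorem num_bound {ε s r P : ℝ} (hε : 0 < ε) (hr : r ^ 2 ≤ s) (hP : 0 ≤ P)
    (h : ε * (1 + s ^ 4) + P < r ^ 2 + (s - 2) ^ 2) :
    s ≤ 1 + 5 / ε ∧ P ≤ (1 + 5 / ε) + ((1 + 5 / ε) + 2) ^ 2 ∧ |r| ≤ 1 + 5 / ε ∧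
      ε ≤ r ^ 2 + (s - 2) ^ 2 := by
  have h0 : 0 ≤ s := (sq_nonneg r).trans hr
  have hB : 0 ≤ 5 / ε := by positivity
  have h4 : 0 ≤ s ^ 4 := by positivity
  have hs : s ≤ 1 + 5 / ε := by
    by_contra hc
    rw [not_le] at hc
    have s1 : 1 < s := by linarith
    have s2 : 5 / ε < s := by linarith
    rw [div_lt_iff₀ hε] at s2
    have h6 : ε * s ^ 4 < s ^ 2 + 4 := by nlinarith
    have h7 : 5 * s ^ 3 ≤ ε * s ^ 4 := by
      have e : ε * s ^ 4 = (s * ε) * s ^ 3 := by ring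
      rw [e]
      exact mul_le_mul_of_nonneg_right s2.le (by positivity)
    have h8 : s ^ 2 ≤ s ^ 3 := by
      have e : s ^ 3 = s ^ 2 * s := by ring
      rw [e]; nlinarith [sq_nonneg s]
    have h9 : 1 < s ^ 3 := one_lt_pow₀ s1 (by norm_num)
    linarith
  have hε4 : 0 ≤ ε * s ^ 4 := by positivity
  refine ⟨hs, ?_, ?_, ?_⟩
  · have h5 : (s - 2) ^ 2 ≤ ((1 + 5 / ε) + 2) ^ 2 := by
      apply sq_le_sq'
      · linarith
      · linarith
    linarith
  · apply abs_le_of_sq_le_sq _ (by linarith)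
    have : s ≤ (1 + 5 / ε) ^ 2 := by nlinarith
    linarith
  · linarith

theorem single_K (Z : Finset {z : ℂ // 0 < z.im}) (z : {z : ℂ // 0 < z.im}) (hz : z ∈ Z) (c : ℕ)
    (T : Co n) : ‖K z.1 T‖ ^ 2 * (c : ℝ) ≤ c * ∑ z ∈ Z, ‖K z.1 T‖ ^ 2 := by
  rw [mul_comm]
  refine mul_le_mul_of_nonneg_left ?_ (Nat.cast_nonneg _)
  exact Finset.single_le_sum (f := fun z : {z : ℂ // 0 < z.im} => ‖K z.1 T‖ ^ 2)
          (fun _ _ => sq_nonneg _) hz

/-- deterministic inequality -/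
theorem det_ineq {ε : ℝ} (hε : 0 < ε) : ∃ (Z : Finset {z : ℂ // 0 < z.im}) (c : ℕ),
    ∀ n : ℕ, 0 < n → ∀ T : Co n,
      t 1 T ^ 2 + (t 2 T - 2) ^ 2 ≤ ε * (1 + t 2 T ^ 4) + c * ∑ z ∈ Z, ‖K z.1 T‖ ^ 2 := by
  classical
  by_contra hcon
  push Not at hcon
  choose N hN T hT using hcon
  obtain ⟨U, hUle⟩ : ∃ U : Ultrafilter (Finset {z : ℂ // 0 < z.im} × ℕ),
    (U : Filter (Finset {z : ℂ // 0 < z.im} × ℕ)) ≤ atTop := ⟨Ultrafilter.of _, Ultrafilter.of_le _⟩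
  have hnum := fun i : Finset {z : ℂ // 0 < z.im} × ℕ =>
    num_bound hε (t1_sq (hN i.1 i.2) (T i.1 i.2)) (P := i.2 * ∑ z ∈ i.1, ‖K z.1 (T i.1 i.2)‖ ^ 2)
      (by positivity) (hT i.1 i.2)
  refine abs_uniq U (fun i => t 1 (T i.1 i.2)) (fun i => t 2 (T i.1 i.2))
    (fun i z => G z (T i.1 i.2)) (B := 1 + 5 / ε) (ε := ε) hε (fun i => (hnum i).2.2.1)
    (fun i => ?_)
    (fun i z hz => norm_G (hN i.1 i.2) hz.ne' _)
    (fun i z w hz hw => G_lip (hN i.1 i.2) hz.ne' hw.ne' _) ?_ (fun i => (hnum i).2.2.2)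
  · rw [abs_of_nonneg ((sq_nonneg _).trans (t1_sq (hN i.1 i.2) (T i.1 i.2)))]
    exact (hnum i).1
  · intro z hz
    have e : ∀ i : Finset {z : ℂ // 0 < z.im} × ℕ, G z (T i.1 i.2) ^ 2 -
        (z ^ 3 - 2 * z) * G z (T i.1 i.2) + z ^ 2 +
        z * ((t 1 (T i.1 i.2) : ℝ) : ℂ) + ((t 2 (T i.1 i.2) : ℝ) : ℂ) - 2 = K z (T i.1 i.2) := by
      intro i
      unfold K
      rw [tau_eq, tau_eq]
    simp only [e]
    have hkey : Tendsto (fun i : Finset {z : ℂ // 0 < z.im} × ℕ => ‖K z (T i.1 i.2)‖ ^ 2) U (𝓝 0) := by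
      have hb : Tendsto (fun i : Finset {z : ℂ // 0 < z.im} × ℕ =>
          ((1 + 5 / ε) + ((1 + 5 / ε) + 2) ^ 2) / (i.2 : ℝ)) U (𝓝 0) := by
        have h3 : Tendsto (fun i : Finset {z : ℂ // 0 < z.im} × ℕ => i.2)
            (atTop : Filter (Finset {z : ℂ // 0 < z.im} × ℕ)) atTop := by
          rw [← prod_atTop_atTop_eq]; exact tendsto_snd
        exact ((tendsto_const_div_atTop_nhds_zero_nat _).comp h3).mono_left hUle
      refine squeeze_zero' (Eventually.of_forall fun i => by positivity) ?_ hb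
      have hev : ∀ᶠ i : Finset {z : ℂ // 0 < z.im} × ℕ in U,
          (({⟨z, hz⟩} : Finset {z : ℂ // 0 < z.im}), 1) ≤ i :=
        (eventually_ge_atTop _).filter_mono hUle
      filter_upwards [hev] with i hi
      have hmem : (⟨z, hz⟩ : {z : ℂ // 0 < z.im}) ∈ i.1 := hi.1 (Finset.mem_singleton_self _)
      have hi2 : 1 ≤ i.2 := hi.2
      have hc : (0 : ℝ) < (i.2 : ℝ) := by exact_mod_cast hi2
      rw [le_div_iff₀ hc]
      exact (single_K i.1 ⟨z, hz⟩ hmem i.2 (T i.1 i.2)).trans (hnum i).2.1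
    rw [tendsto_zero_iff_norm_tendsto_zero]
    have h3 := hkey.sqrt
    rw [Real.sqrt_zero] at h3
    refine h3.congr fun i => ?_
    rw [Real.sqrt_sq (norm_nonneg _)]

end H203R3.MM
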